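import Pool.Agent.Q284.PS.Stm2

/-!
# Project PS: job ZB (mass of the prime powers)
-/

set_option autoImplicit false

open Finset Polynomial ComplexConjugate
open Pool.Agent.H341R2.Sharp (Mon mem_Mon)
open Pool.Agent.Q284.PS

namespace Pool.Agent.Q24.PS

section basic

variable {F : Type} [Field F] [Fintype F]

lemma mem_PI {k : ℕ} {P : F[X]} : P ∈ PI F k ↔ (P.Monic ∧ P.natDegree = k) ∧ Irreducible P := by
  simp only [PI, mem_filter, mem_Mon]

lemma mem_PD {k : ℕ} {P : F[X]} : P ∈ PD F k ↔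
    (P.Monic ∧ P.natDegree ≤ k) ∧ Irreducible P ∧ P.natDegree ∣ k := by
  simp only [PD, mem_filter, mem_biUnion, mem_range, mem_Mon]
  constructor
  · rintro ⟨⟨m, hm, hP⟩, h1, h2⟩
    exact ⟨⟨hP.1, by omega⟩, h1, h2⟩
  · rintro ⟨⟨h1, h2⟩, h3, h4⟩
    exact ⟨⟨P.natDegree, by omega, h1, rfl⟩, h3, h4⟩

lemma PI_deg_pos {k : ℕ} {P : F[X]} (hP : P ∈ PI F k) : 1 ≤ k := by
  rw [mem_PI] at hP
  obtain ⟨⟨h1, h2⟩, h3⟩ := hP
  have := h3.natDegree_pos
  omega

lemma card_PI (hC : S_CPR) {j : ℕ} (hj : 1 ≤ j) : (j : ℝ) * (PI F j).card ≤ qq F ^ j := by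
  have h1 := hC F j hj
  have h2 : PI F j ⊆ PD F j := by
    intro P hP
    rw [mem_PI] at hP
    rw [mem_PD]
    exact ⟨⟨hP.1.1, hP.1.2.le⟩, hP.2, by rw [hP.1.2]⟩
  have h3 : ∑ P ∈ PI F j, P.natDegree ≤ ∑ P ∈ PD F j, P.natDegree :=
    sum_le_sum_of_subset h2
  have h4 : ∑ P ∈ PI F j, P.natDegree = (PI F j).card * j := by
    rw [sum_congr rfl (fun P hP => (mem_PI.1 hP).1.2), sum_const, smul_eq_mul]
  rw [h1, h4] at h3
  have h5 : (((PI F j).card * j : ℕ) : ℝ) ≤ ((Fintype.card F ^ j : ℕ) : ℝ) := by exact_mod_cast h3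
  push_cast at h5
  unfold qq
  linarith

omit [Field F] in
lemma three_le (h : 3 ≤ Fintype.card F) : 3 ≤ qq F := by
  unfold qq
  exact_mod_cast h

end basic

/-! ### the weights -/

lemma HH_lt {d m : ℕ} (hd : 1 ≤ d) : (HH d m : ℝ) < 2 * m / d + 1 := by
  unfold HH
  have hdr : (0 : ℝ) < d := by exact_mod_cast hd
  have h1 : (((2 * m + d - 1) / d : ℕ) : ℝ) ≤ ((2 * m + d - 1 : ℕ) : ℝ) / d := Nat.cast_div_le
  have h2 : ((2 * m + d - 1 : ℕ) : ℝ) < 2 * m + d := by
    have : 2 * m + d - 1 < 2 * m + d := by omega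
    exact_mod_cast this
  have h3 : ((2 * m + d - 1 : ℕ) : ℝ) / d < (2 * m + d) / d := div_lt_div_of_pos_right h2 hdr
  have h4 : ((2 : ℝ) * m + d) / d = 2 * m / d + 1 := by
    field_simp
  linarith

lemma om_pos {q : ℝ} (hq : 0 < q) (d : ℕ) {n : ℕ} (hn : 1 ≤ n) : 0 < om q d n := by
  unfold om
  have : (0 : ℝ) < n := by exact_mod_cast hn
  positivity

lemma ww_pos {q : ℝ} (hq : 0 < q) (d : ℕ) {n : ℕ} (hn : 1 ≤ n) : 0 < ww q d n := by
  unfold ww
  have : (0 : ℝ) < n := by exact_mod_cast hn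
  positivity

lemma ww_sq {q : ℝ} (hq : 0 < q) (d : ℕ) {n : ℕ} (hn : 1 ≤ n) : ww q d n ^ 2 = q ^ n / n * om q d n := by
  have hnr : (0 : ℝ) < n := by exact_mod_cast hn
  unfold ww om
  have e1 : ((100 : ℝ) ^ HH d n) ^ 2 = 10000 ^ HH d n := by
    rw [← pow_mul, mul_comm, pow_mul]
    norm_num
  have e2 : (q ^ ((5 : ℝ) * n / 8)) ^ 2 = q ^ n * q ^ ((n : ℝ) / 4) := by
    rw [← Real.rpow_natCast, ← Real.rpow_mul hq.le, ← Real.rpow_natCast q n, ← Real.rpow_add hq]
    congr 1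
    push_cast
    ring
  have e3 : ((n : ℝ) ^ ((5 : ℝ) / 2)) ^ 2 = n * (n : ℝ) ^ 4 := by
    rw [← Real.rpow_natCast, ← Real.rpow_mul hnr.le]
    norm_num
    ring
  rw [div_pow, mul_pow, e1, e2, e3]
  field_simp

lemma om_le {q : ℝ} (hq : 1 ≤ q) {d m j : ℕ} (hd : 1 ≤ d) (hm : 1 ≤ m) (hmj : 2 * m ≤ j) :
    om q d m ≤ 10000 ^ ((j : ℝ) / d + 1) * q ^ ((j : ℝ) / 8) := by
  have hmr : (1 : ℝ) ≤ m := by exact_mod_cast hm
  have hdr : (0 : ℝ) < d := by exact_mod_cast hd
  have hmj' : 2 * (m : ℝ) ≤ j := by exact_mod_cast hmj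
  unfold om
  have e1 : (10000 : ℝ) ^ HH d m ≤ 10000 ^ ((j : ℝ) / d + 1) := by
    rw [← Real.rpow_natCast]
    apply Real.rpow_le_rpow_of_exponent_le (by norm_num)
    have h1 := (HH_lt (m := m) hd).le
    have h2 : 2 * (m : ℝ) / d ≤ j / d := div_le_div_of_nonneg_right hmj' hdr.le
    linarith
  have e2 : q ^ ((m : ℝ) / 4) ≤ q ^ ((j : ℝ) / 8) := Real.rpow_le_rpow_of_exponent_le hq (by linarith)
  have e3 : (1 : ℝ) ≤ (m : ℝ) ^ 4 := one_le_pow₀ hmr
  calc (10000 : ℝ) ^ HH d m * q ^ ((m : ℝ) / 4) / (m : ℝ) ^ 4 ≤ 10000 ^ HH d m * q ^ ((m : ℝ) / 4) :=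
        div_le_self (by positivity) e3
    _ ≤ _ := mul_le_mul e1 e2 (by positivity) (by positivity)

section main

variable {F : Type} [Field F] [Fintype F]

lemma a_le (hq : 3 ≤ qq F) {d N : ℕ} {a : F[X] → ℂ} (hG : Good F d N a) (hd : 16 ≤ d) {m : ℕ} (hm : m ≤ N)
    {P : F[X]} (hP : P ∈ PI F m) : ‖a P‖ ≤ 1 / 4 := by
  by_cases h : 2 * m < d
  · rw [hG.zero P (by rw [(mem_PI.1 hP).1.2]; exact h), norm_zero]
    norm_num
  · have h1 := hG.small m hm P hP
    have hm8 : (8 : ℝ) ≤ m := by exact_mod_cast (by omega : 8 ≤ m)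
    refine h1.trans ?_
    calc qq F ^ (-((m : ℝ) / 4)) ≤ qq F ^ (-(2 : ℝ)) :=
          Real.rpow_le_rpow_of_exponent_le (by linarith) (by linarith)
      _ = 1 / qq F ^ 2 := by
          rw [Real.rpow_neg (by linarith), one_div]
          norm_num
      _ ≤ 1 / 4 := by
          apply one_div_le_one_div_of_le (by norm_num)
          nlinarith

/-- the sum over the primes of one small degree -/
lemma fibre (hL : S_LOC1) (hC : S_CPR) (hq : 3 ≤ qq F) {d N : ℕ} {a : F[X] → ℂ} (hG : Good F d N a)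
    (hd : 16 ≤ d) {j m k e : ℕ} (hj : j ≤ N) (hm : 1 ≤ m) (hk : 2 ≤ k) (hmk : j = m * k)
    (he1 : 1 ≤ e) (he2 : e ≤ 2) :
    ∑ P ∈ PI F m, ‖hh d (a P) k‖ ^ e ≤
      qq F ^ ((4 : ℝ) * j / d) + 10000 ^ ((j : ℝ) / d + 1) * qq F ^ ((j : ℝ) / 8) := by
  have hq1 : 1 ≤ qq F := by linarith
  have hqp : 0 < qq F := by linarith
  have hdr : (16 : ℝ) ≤ d := by exact_mod_cast hd
  have hd0 : (0 : ℝ) < d := by linarith
  have hmj : m ≤ j := by
    rw [hmk]
    exact Nat.le_mul_of_pos_right m (by omega)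
  have hkj : k ≤ j := by
    rw [hmk]
    exact Nat.le_mul_of_pos_left k (by omega)
  have h2m : 2 * m ≤ j := by
    rw [hmk]
    nlinarith
  have hjr : (j : ℝ) = m * k := by exact_mod_cast hmk
  have hkr : (k : ℝ) ≤ j := by exact_mod_cast hkj
  by_cases hkd : d - 1 ≤ k
  · -- large exponents
    have hk1 : (d : ℝ) ≤ 2 * k := by
      have : d ≤ 2 * k := by omega
      exact_mod_cast this
    have h1 : ∀ P ∈ PI F m, ‖hh d (a P) k‖ ^ e ≤ qq F ^ ((2 : ℝ) * j / d) := by
      intro P hP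
      have h2 := (hL d (a P) (by omega) (a_le hq hG hd (by omega) hP)).2.2.2 k
      have h3 : (3 : ℝ) ^ ((k : ℝ) / d) ≤ qq F ^ ((j : ℝ) / d) := by
        calc (3 : ℝ) ^ ((k : ℝ) / d) ≤ qq F ^ ((k : ℝ) / d) := Real.rpow_le_rpow (by norm_num) hq (by positivity)
          _ ≤ qq F ^ ((j : ℝ) / d) := Real.rpow_le_rpow_of_exponent_le hq1
              (div_le_div_of_nonneg_right hkr hd0.le)
      have h4 : 1 ≤ qq F ^ ((j : ℝ) / d) := Real.one_le_rpow hq1 (by positivity)
      calc ‖hh d (a P) k‖ ^ e ≤ (qq F ^ ((j : ℝ) / d)) ^ e :=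
            pow_le_pow_left₀ (norm_nonneg _) (h2.trans h3) e
        _ ≤ (qq F ^ ((j : ℝ) / d)) ^ 2 := pow_le_pow_right₀ h4 he2
        _ = qq F ^ ((2 : ℝ) * j / d) := by
            rw [← Real.rpow_natCast, ← Real.rpow_mul hqp.le]
            congr 1
            push_cast
            ring
    have h2 : ((PI F m).card : ℝ) ≤ qq F ^ ((2 : ℝ) * j / d) := by
      have h3 := card_PI (F := F) hC hm
      have h4 : (1 : ℝ) ≤ m := by exact_mod_cast hm
      have h5 : ((PI F m).card : ℝ) ≤ m * (PI F m).card := le_mul_of_one_le_left (by positivity) h4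
      refine h5.trans (h3.trans ?_)
      rw [← Real.rpow_natCast]
      apply Real.rpow_le_rpow_of_exponent_le hq1
      rw [le_div_iff₀ hd0, hjr]
      nlinarith
    have h3 : 0 ≤ qq F ^ ((2 : ℝ) * j / d) := by positivity
    calc ∑ P ∈ PI F m, ‖hh d (a P) k‖ ^ e ≤ ∑ P ∈ PI F m, qq F ^ ((2 : ℝ) * j / d) := sum_le_sum h1
      _ = (PI F m).card * qq F ^ ((2 : ℝ) * j / d) := by rw [sum_const, nsmul_eq_mul]
      _ ≤ qq F ^ ((2 : ℝ) * j / d) * qq F ^ ((2 : ℝ) * j / d) := mul_le_mul_of_nonneg_right h2 h3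
      _ = qq F ^ ((4 : ℝ) * j / d) := by
          rw [← Real.rpow_add hqp]
          congr 1
          ring
      _ ≤ _ := le_add_of_nonneg_right (by positivity)
  · -- small exponents
    have h1 : ∀ P ∈ PI F m, ‖hh d (a P) k‖ ^ e ≤ ‖a P‖ ^ 2 := by
      intro P hP
      have h0 := a_le hq hG hd (by omega) hP
      have h2 := (hL d (a P) (by omega) h0).2.1 k (by omega) (by omega)
      rw [h2, norm_pow, ← pow_mul]
      apply pow_le_pow_of_le_one (norm_nonneg _) (by linarith)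
      nlinarith
    have h2 := hG.l2 m hm (by omega)
    have h3 := om_le hq1 (d := d) (by omega) hm h2m
    have hB : BB ^ 2 ≤ 1 := by
      unfold BB
      norm_num
    have hom : 0 ≤ om (qq F) d m := (om_pos hqp d hm).le
    calc ∑ P ∈ PI F m, ‖hh d (a P) k‖ ^ e ≤ ∑ P ∈ PI F m, ‖a P‖ ^ 2 := sum_le_sum h1
      _ ≤ BB ^ 2 * om (qq F) d m := h2
      _ ≤ 1 * om (qq F) d m := mul_le_mul_of_nonneg_right hB hom
      _ ≤ 10000 ^ ((j : ℝ) / d + 1) * qq F ^ ((j : ℝ) / 8) := by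
          rw [one_mul]
          exact h3
      _ ≤ _ := le_add_of_nonneg_left (by positivity)

/-- the sum over the primes of smaller degree -/
lemma small_sum (hL : S_LOC1) (hC : S_CPR) (hq : 3 ≤ qq F) {d N : ℕ} {a : F[X] → ℂ} (hG : Good F d N a)
    (hd : 16 ≤ d) {j e : ℕ} (hj : j ≤ N) (he1 : 1 ≤ e) (he2 : e ≤ 2) (T : ℝ) (hT0 : 0 ≤ T)
    (hT : d ≤ j → j * (qq F ^ ((4 : ℝ) * j / d) + 10000 ^ ((j : ℝ) / d + 1) * qq F ^ ((j : ℝ) / 8)) ≤ T) :
    ∑ P ∈ (PD F j).filter (fun P => P.natDegree < j), ‖hh d (a P) (j / P.natDegree)‖ ^ e ≤ T := by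
  by_cases hjd : d ≤ j
  · refine le_trans ?_ (hT hjd)
    have h1 : ∀ P ∈ (PD F j).filter (fun P => P.natDegree < j), P.natDegree ∈ Icc 1 (j - 1) := by
      intro P hP
      rw [mem_filter, mem_PD] at hP
      have := hP.1.2.1.natDegree_pos
      rw [mem_Icc]
      omega
    rw [← sum_fiberwise_of_maps_to h1]
    have h2 : ∀ m ∈ Icc 1 (j - 1),
        ∑ P ∈ ((PD F j).filter (fun P => P.natDegree < j)).filter (fun P => P.natDegree = m),
          ‖hh d (a P) (j / P.natDegree)‖ ^ e ≤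
        qq F ^ ((4 : ℝ) * j / d) + 10000 ^ ((j : ℝ) / d + 1) * qq F ^ ((j : ℝ) / 8) := by
      intro m hm
      rw [mem_Icc] at hm
      have hqp : 0 < qq F := by linarith
      by_cases hmj : m ∣ j
      · obtain ⟨k, hk⟩ := hmj
        have hjm : j / m = k := by
          rw [hk]
          exact Nat.mul_div_cancel_left k (by omega)
        have hk2 : 2 ≤ k := by
          by_contra hcon
          have : k = 0 ∨ k = 1 := by omega
          rcases this with h | h
          · rw [h] at hk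
            omega
          · rw [h] at hk
            omega
        refine le_trans ?_ (fibre hL hC hq hG hd hj hm.1 hk2 hk he1 he2)
        have h3 : ((PD F j).filter (fun P => P.natDegree < j)).filter (fun P => P.natDegree = m) ⊆ PI F m := by
          intro P hP
          rw [mem_filter, mem_filter, mem_PD] at hP
          rw [mem_PI]
          exact ⟨⟨hP.1.1.1.1, hP.2⟩, hP.1.1.2.1⟩
        have h4 : ∀ P ∈ ((PD F j).filter (fun P => P.natDegree < j)).filter (fun P => P.natDegree = m),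
            ‖hh d (a P) (j / P.natDegree)‖ ^ e = ‖hh d (a P) k‖ ^ e := by
          intro P hP
          rw [mem_filter] at hP
          rw [hP.2, hjm]
        rw [sum_congr rfl h4]
        exact sum_le_sum_of_subset_of_nonneg h3 (fun _ _ _ => by positivity)
      · have h3 : ((PD F j).filter (fun P => P.natDegree < j)).filter (fun P => P.natDegree = m) = ∅ := by
          apply eq_empty_of_forall_notMem
          intro P hP
          rw [mem_filter, mem_filter, mem_PD] at hP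
          apply hmj
          rw [← hP.2]
          exact hP.1.1.2.2
        rw [h3, sum_empty]
        positivity
    have hqp : 0 < qq F := by linarith
    calc _ ≤ ∑ m ∈ Icc 1 (j - 1), (qq F ^ ((4 : ℝ) * j / d) + 10000 ^ ((j : ℝ) / d + 1) * qq F ^ ((j : ℝ) / 8)) :=
          sum_le_sum h2
      _ = ((j - 1 : ℕ) : ℝ) * (qq F ^ ((4 : ℝ) * j / d) + 10000 ^ ((j : ℝ) / d + 1) * qq F ^ ((j : ℝ) / 8)) := by
          rw [sum_const, nsmul_eq_mul, Nat.card_Icc, Nat.add_sub_cancel]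
      _ ≤ _ := by
          apply mul_le_mul_of_nonneg_right _ (by positivity)
          exact_mod_cast Nat.sub_le j 1
  · -- all terms are zero
    have h1 : ∀ P ∈ (PD F j).filter (fun P => P.natDegree < j), ‖hh d (a P) (j / P.natDegree)‖ ^ e = 0 := by
      intro P hP
      rw [mem_filter, mem_PD] at hP
      obtain ⟨⟨⟨p1, p2⟩, p3, p4⟩, p5⟩ := hP
      obtain ⟨k, hk⟩ := p4
      have hpos := p3.natDegree_pos
      have hjm : j / P.natDegree = k := by
        conv_lhs => rw [hk]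
        exact Nat.mul_div_cancel_left k hpos
      have hk2 : 2 ≤ k := by
        by_contra hcon
        have : k = 0 ∨ k = 1 := by omega
        rcases this with h | h
        · rw [h] at hk
          omega
        · rw [h] at hk
          omega
      have hkj : k ≤ j := by
        rw [hk]
        exact Nat.le_mul_of_pos_left k hpos
      have h2m : 2 * P.natDegree ≤ j := by
        conv_rhs => rw [hk]
        nlinarith
      have hz := hG.zero P (by omega)
      rw [hz, hjm]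
      obtain ⟨_, l2, l3, _⟩ := hL d 0 (by omega) (by simp)
      have h4 : ‖hh d 0 k‖ = 0 := by
        by_cases hkd : k ≤ d - 2
        · rw [l2 k (by omega) hkd, zero_pow (by omega), norm_zero]
        · have hk1 : k = d - 1 := by omega
          rw [hk1]
          apply le_antisymm _ (norm_nonneg _)
          simpa using l3
      rw [h4, zero_pow (by omega)]
    rw [sum_eq_zero h1]
    exact hT0

theorem t_ZB : S_LOC1 → S_CPR → S_ZBN → S_ZB := by
  intro hL hC ⟨d₁, hN⟩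
  refine ⟨max d₁ 16, fun d hd F _ _ hF N a hG j hj1 hj => ?_⟩
  have hd1 : d₁ ≤ d := (le_max_left _ _).trans hd
  have hd2 : 16 ≤ d := (le_max_right _ _).trans hd
  have hq := three_le (F := F) hF
  have hqp : 0 < qq F := by linarith
  have hB : 0 < BB := by
    unfold BB
    norm_num
  have hom := om_pos hqp d hj1
  have hww := ww_pos hqp d hj1
  have hjr : (1 : ℝ) ≤ j := by exact_mod_cast hj1
  have hZ := fun h : d ≤ j => hN d hd1 (qq F) j hq h
  have s1 := small_sum hL hC hq hG hd2 (e := 1) hj le_rfl (by norm_num) (BB * ww (qq F) d j) (by positivity)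
    (fun h => (hZ h).1)
  have s2 := small_sum hL hC hq hG hd2 (e := 2) hj (by norm_num) le_rfl (BB ^ 2 * om (qq F) d j / (10 ^ 6 * j))
    (by positivity) (fun h => (hZ h).2)
  simp only [pow_one] at s1
  -- the primes of degree `j`
  have hfil : (PD F j).filter (fun P => ¬ P.natDegree < j) = PI F j := by
    ext P
    rw [mem_filter, mem_PD, mem_PI]
    constructor
    · rintro ⟨⟨⟨h1, h2⟩, h3, _⟩, h4⟩
      exact ⟨⟨h1, by omega⟩, h3⟩
    · rintro ⟨⟨h1, h2⟩, h3⟩
      exact ⟨⟨⟨h1, h2.le⟩, h3, by rw [h2]⟩, by omega⟩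
  have hterm : ∀ P ∈ PI F j, hh d (a P) (j / P.natDegree) = a P := by
    intro P hP
    have h0 := a_le hq hG hd2 hj hP
    have h1 := (hL d (a P) (by omega) h0).2.1 1 le_rfl (by omega)
    rw [(mem_PI.1 hP).1.2, Nat.div_self (by omega), h1, pow_one]
  have l2 := hG.l2 j hj1 hj
  have l1 : ∑ P ∈ PI F j, ‖a P‖ ≤ BB * ww (qq F) d j := by
    apply le_of_pow_le_pow_left₀ (n := 2) (by norm_num) (by positivity)
    have h1 := sq_sum_le_card_mul_sum_sq (s := PI F j) (f := fun P => ‖a P‖)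
    have h2 := card_PI (F := F) hC hj1
    have h3 : ((PI F j).card : ℝ) ≤ qq F ^ j / j := by
      rw [le_div_iff₀ (by linarith)]
      linarith
    calc (∑ P ∈ PI F j, ‖a P‖) ^ 2 ≤ (PI F j).card * ∑ P ∈ PI F j, ‖a P‖ ^ 2 := h1
      _ ≤ qq F ^ j / j * (BB ^ 2 * om (qq F) d j) :=
          mul_le_mul h3 l2 (by positivity) (by positivity)
      _ = (BB * ww (qq F) d j) ^ 2 := by
          rw [mul_pow, ww_sq hqp d hj1]
          ring
  have hsplit : ∀ f : F[X] → ℝ, ∑ P ∈ PD F j, f P =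
      ∑ P ∈ (PD F j).filter (fun P => P.natDegree < j), f P + ∑ P ∈ PI F j, f P := by
    intro f
    rw [← hfil, sum_filter_add_sum_filter_not]
  refine ⟨?_, ?_, s2⟩
  · rw [hsplit]
    have h1 : ∑ P ∈ PI F j, ‖hh d (a P) (j / P.natDegree)‖ = ∑ P ∈ PI F j, ‖a P‖ :=
      sum_congr rfl (fun P hP => by rw [hterm P hP])
    rw [h1]
    linarith
  · rw [hsplit]
    have h1 : ∑ P ∈ PI F j, ‖hh d (a P) (j / P.natDegree)‖ ^ 2 = ∑ P ∈ PI F j, ‖a P‖ ^ 2 :=
      sum_congr rfl (fun P hP => by rw [hterm P hP])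
    have h2 : BB ^ 2 * om (qq F) d j / (10 ^ 6 * j) ≤ BB ^ 2 * om (qq F) d j := by
      apply div_le_self (by positivity)
      nlinarith
    rw [h1]
    linarith

end main

end Pool.Agent.Q24.PS
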