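import Pool.Agent.Q24.PS.GB

/-!
# Project PS: job EB (mean squares over families of characters)
-/

set_option autoImplicit false

open Finset Polynomial ComplexConjugate
open Pool.Agent.H341R2.Sharp (Mon mem_Mon)
open Pool.Agent.Q284.PS

namespace Pool.Agent.Q24.PS

/-- the `ℓ²` norm -/
noncomputable def l2n {ι : Type} [Fintype ι] (v : ι → ℂ) : ℝ := Real.sqrt (∑ i, ‖v i‖ ^ 2)

section l2

variable {ι : Type} [Fintype ι]

lemma l2n_eq (v : ι → ℂ) : l2n v = ‖(WithLp.toLp 2 v : EuclideanSpace ℂ ι)‖ := by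
  rw [EuclideanSpace.norm_eq]
  rfl

lemma l2n_add (v w : ι → ℂ) : l2n (fun i => v i + w i) ≤ l2n v + l2n w := by
  rw [l2n_eq, l2n_eq, l2n_eq]
  exact norm_add_le (WithLp.toLp 2 v : EuclideanSpace ℂ ι) (WithLp.toLp 2 w)

lemma l2n_sum {κ : Type} (s : Finset κ) (v : κ → ι → ℂ) :
    l2n (fun i => ∑ k ∈ s, v k i) ≤ ∑ k ∈ s, l2n (v k) := by
  classical
  induction s using Finset.induction_on with
  | empty => simp [l2n]
  | insert a s ha ih =>
    simp only [sum_insert ha]
    refine (l2n_add _ _).trans ?_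
    linarith

lemma l2n_mul_le (c v : ι → ℂ) (C : ℝ) (hC : 0 ≤ C) (hc : ∀ i, ‖c i‖ ≤ C) :
    l2n (fun i => c i * v i) ≤ C * l2n v := by
  unfold l2n
  rw [← Real.sqrt_sq hC, ← Real.sqrt_mul (sq_nonneg _)]
  apply Real.sqrt_le_sqrt
  rw [mul_sum]
  apply sum_le_sum
  intro i _
  rw [norm_mul, mul_pow]
  exact mul_le_mul_of_nonneg_right (pow_le_pow_left₀ (norm_nonneg _) (hc i) 2) (sq_nonneg _)

lemma l2n_le {v : ι → ℂ} {C : ℝ} (hC : 0 ≤ C) (h : ∑ i, ‖v i‖ ^ 2 ≤ C ^ 2) : l2n v ≤ C := by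
  unfold l2n
  rw [← Real.sqrt_sq hC]
  exact Real.sqrt_le_sqrt h

end l2

section main

variable {F : Type} [Field F] [Fintype F]

lemma three_of_char (h : ringChar F ≠ 2) : 3 ≤ Fintype.card F := by
  have h1 : Fintype.card F % 2 ≠ 0 := fun h2 => h (FiniteField.even_card_iff_char_two.2 h2)
  have h2 : 1 < Fintype.card F := Fintype.one_lt_card
  omega

omit [Fintype F] in
lemma hay_le {Q : F[X]} {l : ℕ} {χ : F[X] → ℂ} (h : Hay Q l χ) (f : F[X]) : ‖χ f‖ ≤ 1 := by
  by_cases hf : f.Monic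
  · by_cases hQ : IsCoprime f Q
    · rw [h.norm f hf hQ]
    · rw [h.zero f hf hQ, norm_zero]
      norm_num
  · rw [h.off f hf, norm_zero]
    norm_num

lemma ee_zero (d : ℕ) (a : F[X] → ℂ) {χ : F[X] → ℂ} (h : χ 1 = 1) : ee d a χ 0 = 1 := by
  unfold ee
  rw [Mon_zero, sum_singleton, h, mul_one]
  simp only [aF, UniqueFactorizationMonoid.normalizedFactors_one]
  simp

lemma ee_le {d : ℕ} {a χ : F[X] → ℂ} (hχ : ∀ f, ‖χ f‖ ≤ 1) (n : ℕ) :
    ‖ee d a χ n‖ ≤ ∑ f ∈ Mon F n, ‖aF d a f‖ := by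
  unfold ee
  refine (norm_sum_le _ _).trans (sum_le_sum fun f _ => ?_)
  rw [norm_mul]
  exact mul_le_of_le_one_right (norm_nonneg _) (hχ f)

/-- the primes of one degree -/
lemma ss_sum (hD : S_DUAL) (hq : 3 ≤ qq F) {d N : ℕ} {a : F[X] → ℂ} (hG : Good F d N a) {ι : Type} [Fintype ι]
    {χ : ι → F[X] → ℂ} {m : ℕ} (hm1 : 1 ≤ m) (hm : m ≤ N)
    (hNO : ∀ c : ι → ℂ, ∑ P ∈ PI F m, ‖phi χ c P‖ ^ 2 ≤ 2 * (qq F ^ m / m) * nsq c) :
    ∑ i, ‖ss a (χ i) m‖ ^ 2 ≤ 2 * (BB * ww (qq F) d m) ^ 2 := by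
  have hqp : 0 < qq F := by linarith
  have hmp : (0 : ℝ) < m := by exact_mod_cast hm1
  have h1 := hD F[X] (PI F m) ι χ (2 * (qq F ^ m / m)) (by positivity) hNO a
  have h2 := hG.l2 m hm1 hm
  calc ∑ i, ‖ss a (χ i) m‖ ^ 2 ≤ 2 * (qq F ^ m / m) * ∑ P ∈ PI F m, ‖a P‖ ^ 2 := h1
    _ ≤ 2 * (qq F ^ m / m) * (BB ^ 2 * om (qq F) d m) := mul_le_mul_of_nonneg_left h2 (by positivity)
    _ = _ := by
        rw [mul_pow, ww_sq hqp d hm1]
        ring

end main

theorem t_EB : S_NO → S_UP → S_DUAL → S_DEC → S_GB → S_WC → S_EB := by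
  intro ⟨d₁, hd₁, hNO⟩ ⟨C, _, hUP⟩ hD hDEC ⟨d₀, hGB⟩ hWC
  refine ⟨max d₀ 4, 2 * d₁ + 2, fun d hd F _ _ hF N a hG n hn hdn R ι _ χ hχ hR => ?_⟩
  have hd0 : d₀ ≤ d := (le_max_left _ _).trans hd
  have hd4 : 4 ≤ d := (le_max_right _ _).trans hd
  have hF3 := three_of_char hF
  have hq := three_le (F := F) hF3
  have hqp : 0 < qq F := by linarith
  have hn1 : 1 ≤ n := by omega
  have hnp : (0 : ℝ) < n := by exact_mod_cast hn1
  have hB : 0 < BB := by
    unfold BB
    norm_num
  have hw := ww_pos hqp d hn1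
  have hss : ∀ m, d₁ * (R + 1) ≤ m → 1 ≤ m → m ≤ N →
      ∑ i, ‖ss a (χ i) m‖ ^ 2 ≤ 2 * (BB * ww (qq F) d m) ^ 2 := by
    intro m h1 h2 h3
    exact ss_sum hD hq hG h2 h3
      (fun c => (hNO F hF R m ι χ hχ h1 c).2)
  have hRn : d₁ * (R + 1) ≤ n := by nlinarith
  have hR2 : 2 * R ≤ n := by nlinarith
  have hχ1 : ∀ i f, ‖χ i f‖ ≤ 1 := by
    intro i f
    obtain ⟨Q, l, h, _⟩ := hχ.lev i
    exact hay_le h f
  have hCM : ∀ i, CM (χ i) := by
    intro i
    obtain ⟨Q, l, h, _⟩ := hχ.lev i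
    exact ⟨h.one, h.mul⟩
  refine ⟨?_, ?_⟩
  · refine l2n_le (v := fun i => ss a (χ i) n) (by positivity) ((hss n hRn hn1 hn).trans ?_)
    have : 0 ≤ (BB * ww (qq F) d n) ^ 2 := sq_nonneg _
    nlinarith
  · -- decomposition
    have hdec : ∀ i, ee d a (χ i) n - ss a (χ i) n =
        ∑ j ∈ (Icc 1 (n - 1)).filter (fun j => 2 * j < n), ee d a (χ i) j * ss a (χ i) (n - j) +
        ∑ f ∈ Sm F n, aF d a f * χ i f := by
      intro i
      rw [hDEC F d a (χ i) hd4 (hCM i) n hn1]
      have h1 : (range n).filter (fun i => 2 * i < n) =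
          insert 0 ((Icc 1 (n - 1)).filter (fun j => 2 * j < n)) := by
        ext j
        simp only [mem_filter, mem_range, mem_insert, mem_Icc]
        omega
      rw [h1, sum_insert (by
        simp only [mem_filter, mem_Icc]
        omega), ee_zero d a (hCM i).1, one_mul, Nat.sub_zero]
      ring
    show l2n (fun i => ee d a (χ i) n - ss a (χ i) n) ≤ _
    have h0 : (fun i => ee d a (χ i) n - ss a (χ i) n) = fun i =>
        (∑ j ∈ (Icc 1 (n - 1)).filter (fun j => 2 * j < n), ee d a (χ i) j * ss a (χ i) (n - j)) +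
        ∑ f ∈ Sm F n, aF d a f * χ i f := by
      funext i
      exact hdec i
    rw [h0]
    refine (l2n_add _ _).trans ?_
    -- the first part
    have p1 : l2n (fun i => ∑ j ∈ (Icc 1 (n - 1)).filter (fun j => 2 * j < n),
        ee d a (χ i) j * ss a (χ i) (n - j)) ≤ 23 / 100 * BB * ww (qq F) d n := by
      refine (l2n_sum _ (fun j i => ee d a (χ i) j * ss a (χ i) (n - j))).trans ?_
      have h1 : ∀ j ∈ (Icc 1 (n - 1)).filter (fun j => 2 * j < n),
          l2n (fun i => ee d a (χ i) j * ss a (χ i) (n - j)) ≤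
            5 / 2 * BB * (3 / 2 * BB) * (ww (qq F) d j * ww (qq F) d (n - j)) := by
        intro j hj
        rw [mem_filter, mem_Icc] at hj
        obtain ⟨⟨j1, j2⟩, j3⟩ := hj
        have hw1 := ww_pos hqp d j1
        have hw2 := ww_pos (n := n - j) hqp d (by omega)
        have h2 : ∀ i, ‖ee d a (χ i) j‖ ≤ 5 / 2 * BB * ww (qq F) d j := fun i =>
          (ee_le (hχ1 i) j).trans (hGB d hd0 F hF3 N a hG j j1 (by omega)).1
        have h3 := l2n_mul_le (fun i => ee d a (χ i) j) (fun i => ss a (χ i) (n - j)) _ (by positivity) h2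
        have h4 : l2n (fun i => ss a (χ i) (n - j)) ≤ 3 / 2 * BB * ww (qq F) d (n - j) := by
          refine l2n_le (by positivity) ((hss (n - j) ?_ (by omega) (by omega)).trans ?_)
          · have h5 : 2 * (d₁ * (R + 1)) ≤ n := by nlinarith
            omega
          · have : 0 ≤ (BB * ww (qq F) d (n - j)) ^ 2 := sq_nonneg _
            nlinarith
        calc _ ≤ 5 / 2 * BB * ww (qq F) d j * l2n (fun i => ss a (χ i) (n - j)) := h3
          _ ≤ 5 / 2 * BB * ww (qq F) d j * (3 / 2 * BB * ww (qq F) d (n - j)) :=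
              mul_le_mul_of_nonneg_left h4 (by positivity)
          _ = _ := by ring
      refine (sum_le_sum h1).trans ?_
      rw [← mul_sum]
      have h2 : ∑ j ∈ (Icc 1 (n - 1)).filter (fun j => 2 * j < n), ww (qq F) d j * ww (qq F) d (n - j) ≤
          1600 / 2 * ww (qq F) d n := by
        -- the sum over `j` with `2 j < n` is at most half of the full sum
        have h3 := (hWC (qq F) d n hq (by omega)).1
        have h4 : ∑ j ∈ (Icc 1 (n - 1)).filter (fun j => 2 * j < n), ww (qq F) d j * ww (qq F) d (n - j) =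
            ∑ j ∈ (Icc 1 (n - 1)).filter (fun j => n < 2 * j), ww (qq F) d j * ww (qq F) d (n - j) := by
          apply sum_nbij' (fun j => n - j) (fun j => n - j)
          · intro j hj
            simp only [mem_filter, mem_Icc] at hj ⊢
            omega
          · intro j hj
            simp only [mem_filter, mem_Icc] at hj ⊢
            omega
          · intro j hj
            simp only [mem_filter, mem_Icc] at hj
            omega
          · intro j hj
            simp only [mem_filter, mem_Icc] at hj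
            omega
          · intro j hj
            simp only [mem_filter, mem_Icc] at hj
            have h5 : n - (n - j) = j := by omega
            rw [h5]
            ring
        have h5 : ∑ j ∈ (Icc 1 (n - 1)).filter (fun j => 2 * j < n), ww (qq F) d j * ww (qq F) d (n - j) +
            ∑ j ∈ (Icc 1 (n - 1)).filter (fun j => n < 2 * j), ww (qq F) d j * ww (qq F) d (n - j) ≤
            ∑ j ∈ Icc 1 (n - 1), ww (qq F) d j * ww (qq F) d (n - j) := by
          rw [← sum_union (by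
            rw [disjoint_left]
            intro j hj hj2
            simp only [mem_filter, mem_Icc] at hj hj2
            omega)]
          apply sum_le_sum_of_subset_of_nonneg
          · intro j hj
            simp only [mem_union, mem_filter, mem_Icc] at hj ⊢
            omega
          · intro j _ _
            have h6 : 0 ≤ ww (qq F) d j := by unfold ww; positivity
            have h7 : 0 ≤ ww (qq F) d (n - j) := by unfold ww; positivity
            positivity
        rw [← h4] at h5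
        linarith
      have h3 : 5 / 2 * BB * (3 / 2 * BB) * (1600 / 2 * ww (qq F) d n) ≤ 23 / 100 * BB * ww (qq F) d n := by
        have h4 : 5 / 2 * BB * (3 / 2 * BB) * (1600 / 2 * ww (qq F) d n) =
            (5 / 2 * (3 / 2 * BB) * (1600 / 2)) * (BB * ww (qq F) d n) := by ring
        have h5 : 5 / 2 * (3 / 2 * BB) * (1600 / 2) ≤ 23 / 100 := by
          unfold BB
          norm_num
        rw [h4]
        calc _ ≤ 23 / 100 * (BB * ww (qq F) d n) := mul_le_mul_of_nonneg_right h5 (by positivity)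
          _ = _ := by ring
      exact (mul_le_mul_of_nonneg_left h2 (by positivity)).trans h3
    -- the second part
    have p2 : l2n (fun i => ∑ f ∈ Sm F n, aF d a f * χ i f) ≤ 1 / 100 * BB * ww (qq F) d n := by
      have h1 : ∀ c : ι → ℂ, ∑ f ∈ Sm F n, ‖∑ i, c i * χ i f‖ ^ 2 ≤ qq F ^ n * nsq c := by
        intro c
        refine le_trans ?_ ((hUP F R ι χ hχ n c).1 hR2)
        apply sum_le_sum_of_subset_of_nonneg
        · intro f hf
          simp only [Sm, mem_filter] at hf
          exact hf.1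
        · intro f _ _
          positivity
      have h2 := hD F[X] (Sm F n) ι χ (qq F ^ n) (by positivity) h1 (aF d a)
      have h3 := (hGB d hd0 F hF3 N a hG n hn1 hn).2.2 hdn
      refine l2n_le (by positivity) (h2.trans ?_)
      calc qq F ^ n * ∑ f ∈ Sm F n, ‖aF d a f‖ ^ 2 ≤
          qq F ^ n * (1 / 10 ^ 4 * (BB ^ 2 * om (qq F) d n / n)) := mul_le_mul_of_nonneg_left h3 (by positivity)
        _ = (1 / 100) ^ 2 * BB ^ 2 * (qq F ^ n / n * om (qq F) d n) := by ring
        _ = _ := by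
            rw [← ww_sq hqp d hn1]
            ring
    have : 0 < BB * ww (qq F) d n := by positivity
    linarith

end Pool.Agent.Q24.PS
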