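import Mathlib

/-!
# Finite covers which are projective up to a bounded order

For a homomorphism `c : FreeGroup X → H` (`X`, `H` finite), a set `T` of primes and a number `n` we
construct a finite group `PCov c T n → H` such that every embedding problem for a subgroup of `H`
whose kernel is a group of order at most `n` with all prime divisors in `T` is weakly solved by the
preimage of the subgroup.  The construction is functorial.
-/

set_option autoImplicit false

namespace Pool.Agent.Q24.PS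

universe u v w

/-- all prime divisors of the order of `G` lie in `T` -/
def IsT (T : Set ℕ) (G : Type*) : Prop := ∀ r : ℕ, r.Prime → r ∣ Nat.card G → r ∈ T

theorem IsT.of_dvd {T : Set ℕ} {G K : Type*} (h : IsT T G) (hd : Nat.card K ∣ Nat.card G) :
    IsT T K := fun r hr h1 => h r hr (h1.trans hd)

theorem finite_hom (G : Type u) (H : Type v) [Group G] [Group H] [hG : Group.FG G] [Finite H] :
    Finite (G →* H) := by
  obtain ⟨S, hS⟩ := Group.fg_def.1 hG
  refine Finite.of_injective (fun f : G →* H => fun s : S => f s) ?_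
  intro f g h
  refine MonoidHom.eq_of_eqOn_top ?_
  rw [← hS]
  refine MonoidHom.eqOn_closure ?_
  intro s hs
  exact congrFun h ⟨s, hs⟩

section

variable {X : Type u} {H : Type v} [Group H] (c : FreeGroup X →* H)

/-- the relations of `H` -/
abbrev Rel : Subgroup (FreeGroup X) := c.ker

instance Rel_fi [Finite H] : (Rel c).FiniteIndex := by
  have : Finite (FreeGroup X ⧸ Rel c) :=
    Finite.of_injective _ (QuotientGroup.kerLift_injective c)
  exact Subgroup.finiteIndex_of_finite_quotient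

instance Rel_fg [Finite X] [Finite H] : Group.FG (Rel c) := inferInstance

/-- the homomorphisms which are killed -/
def Hm (T : Set ℕ) (n : ℕ) : Type u :=
  {f : Rel c →* Equiv.Perm (Fin n) // IsT T f.range}

instance (T : Set ℕ) (n : ℕ) [Finite X] [Finite H] : Finite (Hm c T n) := by
  have := finite_hom (Rel c) (Equiv.Perm (Fin n))
  unfold Hm
  infer_instance

/-- all of them -/
def ev (T : Set ℕ) (n : ℕ) : Rel c →* ((f : Hm c T n) → f.1.range) :=
  MonoidHom.pi (fun f => f.1.rangeRestrict)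

/-- the intersection of the kernels -/
def Kn (T : Set ℕ) (n : ℕ) : Subgroup (Rel c) := (ev c T n).ker

variable {c}

theorem mem_Kn {T : Set ℕ} {n : ℕ} {x : Rel c} :
    x ∈ Kn c T n ↔ ∀ f : Rel c →* Equiv.Perm (Fin n), IsT T f.range → f x = 1 := by
  constructor
  · intro h f hf
    exact congrArg Subtype.val (congrFun (show ev c T n x = 1 from h) ⟨f, hf⟩)
  · intro h
    refine funext fun f => Subtype.ext ?_
    exact h f.1 f.2

theorem range_comp_equiv {G K L : Type*} [Group G] [Group K] [Group L] (f : K →* L) (e : G ≃* K) :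
    (f.comp e.toMonoidHom).range = f.range := by
  ext x
  constructor
  · rintro ⟨y, rfl⟩; exact ⟨e y, rfl⟩
  · rintro ⟨y, rfl⟩
    exact ⟨e.symm y, by simp⟩

theorem Kn_equiv {T : Set ℕ} {n : ℕ} (e : Rel c ≃* Rel c) (x : Rel c) :
    e x ∈ Kn c T n ↔ x ∈ Kn c T n := by
  rw [mem_Kn, mem_Kn]
  constructor
  · intro h f hf
    have := h (f.comp e.symm.toMonoidHom) (by rw [range_comp_equiv]; exact hf)
    simpa using this
  · intro h f hf
    exact h (f.comp e.toMonoidHom) (by rw [range_comp_equiv]; exact hf)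

instance Kn_char (T : Set ℕ) (n : ℕ) : (Kn c T n).Characteristic := by
  refine ⟨fun ϕ => ?_⟩
  ext x
  rw [Subgroup.mem_comap]
  exact Kn_equiv ϕ x

instance Kn_fi (T : Set ℕ) (n : ℕ) [Finite X] [Finite H] : (Kn c T n).FiniteIndex := by
  have : Finite (Rel c ⧸ Kn c T n) :=
    Finite.of_injective _ (QuotientGroup.kerLift_injective (ev c T n))
  exact Subgroup.finiteIndex_of_finite_quotient

theorem Kn_isT (T : Set ℕ) (n : ℕ) [Finite X] [Finite H] (r : ℕ) (hr : r.Prime)
    (hd : r ∣ (Kn c T n).index) : r ∈ T := by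
  classical
  have : Fintype (Hm c T n) := Fintype.ofFinite _
  have h1 : Nat.card (Rel c ⧸ Kn c T n) ∣ Nat.card ((f : Hm c T n) → f.1.range) :=
    Subgroup.card_dvd_of_injective _ (QuotientGroup.kerLift_injective (ev c T n))
  have h2 : r ∣ Nat.card ((f : Hm c T n) → f.1.range) := hd.trans h1
  rw [Nat.card_pi] at h2
  obtain ⟨f, -, hf⟩ := (Prime.dvd_finsetProd_iff hr.prime _).1 h2
  exact f.2 r hr hf

variable (c)

/-- the kernel of the cover -/
def N0 (T : Set ℕ) (n : ℕ) : Subgroup (FreeGroup X) := (Kn c T n).map (Rel c).subtype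

instance (T : Set ℕ) (n : ℕ) : (N0 c T n).Normal := by
  unfold N0
  infer_instance

variable {c}

theorem mem_N0 {T : Set ℕ} {n : ℕ} {x : FreeGroup X} :
    x ∈ N0 c T n ↔ ∃ h : x ∈ Rel c, (⟨x, h⟩ : Rel c) ∈ Kn c T n := by
  constructor
  · rintro ⟨y, hy, rfl⟩
    exact ⟨y.2, hy⟩
  · rintro ⟨h, hx⟩
    exact ⟨⟨x, h⟩, hx, rfl⟩

theorem N0_le {T : Set ℕ} {n : ℕ} : N0 c T n ≤ Rel c := fun _ hx => (mem_N0.1 hx).1

variable (c)

/-- the cover -/
def PCov (T : Set ℕ) (n : ℕ) : Type u := FreeGroup X ⧸ N0 c T n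

instance (T : Set ℕ) (n : ℕ) : Group (PCov c T n) :=
  inferInstanceAs (Group (FreeGroup X ⧸ N0 c T n))

/-- the quotient map -/
def mk (T : Set ℕ) (n : ℕ) : FreeGroup X →* PCov c T n := QuotientGroup.mk' (N0 c T n)

theorem mk_surjective (T : Set ℕ) (n : ℕ) : Function.Surjective (mk c T n) :=
  QuotientGroup.mk'_surjective _

theorem mk_ker (T : Set ℕ) (n : ℕ) : (mk c T n).ker = N0 c T n := QuotientGroup.ker_mk' _

/-- the projection -/
def proj (T : Set ℕ) (n : ℕ) : PCov c T n →* H :=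
  QuotientGroup.lift (N0 c T n) c (fun _ hx => N0_le hx)

@[simp] theorem proj_mk (T : Set ℕ) (n : ℕ) (x : FreeGroup X) :
    proj c T n (mk c T n x) = c x := rfl

theorem proj_surjective (T : Set ℕ) (n : ℕ) (hc : Function.Surjective c) :
    Function.Surjective (proj c T n) := by
  intro h
  obtain ⟨x, rfl⟩ := hc h
  exact ⟨mk c T n x, rfl⟩

theorem index_N0 (T : Set ℕ) (n : ℕ) :
    (N0 c T n).index = (Kn c T n).index * (Rel c).index := by
  rw [← Subgroup.relIndex_mul_index (N0_le (c := c) (T := T) (n := n))]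
  congr 1
  unfold N0 Subgroup.relIndex
  rw [Subgroup.subgroupOf, Subgroup.comap_map_eq_self_of_injective (Subgroup.subtype_injective _)]

theorem card_PCov (T : Set ℕ) (n : ℕ) :
    Nat.card (PCov c T n) = (Kn c T n).index * (Rel c).index := index_N0 c T n

instance (T : Set ℕ) (n : ℕ) [Finite X] [Finite H] : Finite (PCov c T n) := by
  have h1 : (N0 c T n).index ≠ 0 := by
    rw [index_N0]
    exact mul_ne_zero Subgroup.FiniteIndex.index_ne_zero Subgroup.FiniteIndex.index_ne_zero
  exact Nat.finite_of_card_ne_zero h1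

theorem PCov_isT (T : Set ℕ) (n : ℕ) [Finite X] [Finite H] (hH : IsT T H) :
    IsT T (PCov c T n) := by
  intro r hr hd
  rw [card_PCov, hr.dvd_mul] at hd
  rcases hd with h | h
  · exact Kn_isT T n r hr h
  · refine hH r hr (h.trans ?_)
    rw [Subgroup.index_ker]
    exact Subgroup.card_subgroup_dvd_card _

end

/-- a group of order at most `n` embeds in the symmetric group of degree `n` -/
theorem exists_perm (A : Type*) [Group A] [Finite A] (n : ℕ) (h : Nat.card A ≤ n) :
    ∃ ι : A →* Equiv.Perm (Fin n), Function.Injective ι := by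
  have hA : Nonempty (A ↪ Fin n) := by
    have : Fintype A := Fintype.ofFinite A
    rw [Nat.card_eq_fintype_card] at h
    exact Function.Embedding.nonempty_of_card_le (by simpa using h)
  obtain ⟨e⟩ := hA
  refine ⟨(Equiv.Perm.viaEmbeddingHom e).comp (MulAction.toPermHom A A), ?_⟩
  rw [MonoidHom.coe_comp]
  exact (Equiv.Perm.viaEmbeddingHom_injective e).comp MulAction.toPerm_injective

/-- homomorphisms of the relations to small groups kill `Kn` -/
theorem kill {X : Type u} {H : Type v} [Group H] {c : FreeGroup X →* H} {T : Set ℕ} {n : ℕ}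
    {B : Type*} [Group B] [Finite B] (hc : Nat.card B ≤ n) (hT : IsT T B) (ψ : Rel c →* B)
    {x : FreeGroup X} (hx : x ∈ N0 c T n) : ψ ⟨x, N0_le hx⟩ = 1 := by
  obtain ⟨h3, h4⟩ := mem_N0.1 hx
  rw [mem_Kn] at h4
  obtain ⟨ι, hι⟩ := exists_perm B n hc
  have h5 := h4 (ι.comp ψ) (by
    have h6 : Nat.card (ι.comp ψ).range ∣ Nat.card ι.range :=
      Subgroup.card_dvd_of_le (by
        rintro _ ⟨y, rfl⟩
        exact ⟨ψ y, rfl⟩)
    have h7 : Nat.card ι.range = Nat.card B :=
      Nat.card_congr (MonoidHom.ofInjective hι).toEquiv.symm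
    rw [h7] at h6
    exact hT.of_dvd h6)
  exact hι (by rw [map_one]; exact h5)

/-- **Weak solutions over the cover.** -/
theorem weak {X : Type u} {H : Type v} [Group H] (c : FreeGroup X →* H) {T : Set ℕ} {n : ℕ}
    (D : Subgroup H) {K : Type w} [Group K]
    (j : H →* K) (A : Type*) [Group A] [Finite A] (β : A →* K) (hD : D.map j ≤ β.range)
    (hc : Nat.card β.ker ≤ n) (hT : IsT T β.ker) :
    ∃ φ : (D.comap (proj c T n) : Subgroup (PCov c T n)) →* A,
      ∀ x, β (φ x) = j (proj c T n x) := by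
  classical
  -- the preimage of `D` in the free group
  let FD : Subgroup (FreeGroup X) := D.comap c
  have hfree : IsFreeGroup FD := inferInstance
  have hch : ∀ x : FD, ∃ a : A, β a = j (c x) := fun x => hD ⟨c x, x.2, rfl⟩
  choose d hdβ using hch
  obtain ⟨φ0, hφ0⟩ : ∃ φ0 : FD →* A, ∀ x, β (φ0 x) = j (c x) := by
    refine ⟨IsFreeGroup.lift fun i => d (IsFreeGroup.of i), ?_⟩
    have h1 : β.comp (IsFreeGroup.lift fun i => d (IsFreeGroup.of i)) =
        (j.comp c).comp FD.subtype := by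
      refine IsFreeGroup.ext_hom ?_
      intro i
      rw [MonoidHom.comp_apply, IsFreeGroup.lift_of, hdβ]
      rfl
    intro x
    exact DFunLike.congr_fun h1 x
  -- the quotient
  have hRel : Rel c ≤ FD := by
    intro x hx
    show c x ∈ D
    rw [show c x = 1 from hx]
    exact D.one_mem
  let q : FD →* (D.comap (proj c T n) : Subgroup (PCov c T n)) :=
    ((mk c T n).comp FD.subtype).codRestrict _ (fun x => x.2)
  have hq : Function.Surjective q := by
    rintro ⟨y, hy⟩
    obtain ⟨x, rfl⟩ := mk_surjective c T n y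
    exact ⟨⟨x, hy⟩, rfl⟩
  have hker : q.ker ≤ φ0.ker := by
    intro x hx
    have h1 : mk c T n x = 1 := congrArg Subtype.val (show q x = 1 from hx)
    have h2 : (x : FreeGroup X) ∈ N0 c T n := by
      rw [← mk_ker]
      exact h1
    let ψ : Rel c →* β.ker := (φ0.comp (Subgroup.inclusion hRel)).codRestrict _ (fun y => by
      rw [MonoidHom.mem_ker]
      show β (φ0 _) = 1
      rw [hφ0]
      exact (congrArg j (show c y = 1 from y.2)).trans (map_one j))
    exact congrArg Subtype.val (kill hc hT ψ h2)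
  refine ⟨(q.liftOfSurjective hq) ⟨φ0, hker⟩, ?_⟩
  intro y
  obtain ⟨x, rfl⟩ := hq y
  have h1 : (q.liftOfSurjective hq) ⟨φ0, hker⟩ (q x) = φ0 x :=
    MonoidHom.liftOfRightInverse_comp_apply _ _ _ ⟨φ0, hker⟩ x
  rw [h1]
  exact hφ0 x

section action

variable {X : Type u} {H : Type v} [Group H] (c : FreeGroup X →* H)

/-- restriction to the relations -/
def relCongr (ξ : MulAut (FreeGroup X)) (θ : MulAut H) (h : ∀ x, c (ξ x) = θ (c x)) :
    Rel c ≃* Rel c where
  toFun x := ⟨ξ x, by
    rw [MonoidHom.mem_ker, h, show c x = 1 from x.2, map_one]⟩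
  invFun x := ⟨ξ.symm x, by
    rw [MonoidHom.mem_ker]
    apply θ.injective
    rw [← h, MulEquiv.apply_symm_apply, show c x = 1 from x.2, map_one]⟩
  left_inv x := Subtype.ext (ξ.symm_apply_apply x)
  right_inv x := Subtype.ext (ξ.apply_symm_apply x)
  map_mul' x y := Subtype.ext (map_mul _ _ _)

theorem congr_mem {T : Set ℕ} {n : ℕ} (ξ : MulAut (FreeGroup X)) (θ : MulAut H)
    (h : ∀ x, c (ξ x) = θ (c x)) {x : FreeGroup X} (hx : x ∈ N0 c T n) :
    ξ x ∈ N0 c T n := by
  obtain ⟨h1, h2⟩ := mem_N0.1 hx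
  exact mem_N0.2 ⟨(relCongr c ξ θ h ⟨x, h1⟩).2, (Kn_equiv (relCongr c ξ θ h) ⟨x, h1⟩).2 h2⟩

/-- functoriality -/
def pmap (T : Set ℕ) (n : ℕ) (ξ : MulAut (FreeGroup X)) (θ : MulAut H)
    (h : ∀ x, c (ξ x) = θ (c x)) : PCov c T n →* PCov c T n :=
  QuotientGroup.map (N0 c T n) (N0 c T n) ξ.toMonoidHom (fun _ hx => congr_mem c ξ θ h hx)

@[simp] theorem pmap_mk (T : Set ℕ) (n : ℕ) (ξ : MulAut (FreeGroup X)) (θ : MulAut H)
    (h : ∀ x, c (ξ x) = θ (c x)) (x : FreeGroup X) :
    pmap c T n ξ θ h (mk c T n x) = mk c T n (ξ x) := rfl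

variable {Γ : Type w} [Group Γ]

/-- the action on the cover -/
def pact (T : Set ℕ) (n : ℕ) (ξ : Γ →* MulAut (FreeGroup X)) (θ : Γ →* MulAut H)
    (h : ∀ γ x, c (ξ γ x) = θ γ (c x)) : Γ →* MulAut (PCov c T n) where
  toFun γ :=
    { toFun := pmap c T n (ξ γ) (θ γ) (h γ)
      invFun := pmap c T n (ξ γ⁻¹) (θ γ⁻¹) (h γ⁻¹)
      left_inv := by
        intro y
        obtain ⟨x, rfl⟩ := mk_surjective c T n y
        rw [pmap_mk, pmap_mk, map_inv]
        congr 1
        exact (ξ γ).symm_apply_apply x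
      right_inv := by
        intro y
        obtain ⟨x, rfl⟩ := mk_surjective c T n y
        rw [pmap_mk, pmap_mk, map_inv]
        congr 1
        exact (ξ γ).apply_symm_apply x
      map_mul' := map_mul _ }
  map_one' := by
    ext y
    obtain ⟨x, rfl⟩ := mk_surjective c T n y
    show pmap c T n (ξ 1) (θ 1) (h 1) (mk c T n x) = mk c T n x
    rw [pmap_mk, map_one]
    rfl
  map_mul' γ δ := by
    ext y
    obtain ⟨x, rfl⟩ := mk_surjective c T n y
    show pmap c T n (ξ (γ * δ)) (θ (γ * δ)) (h (γ * δ)) (mk c T n x) =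
      pmap c T n (ξ γ) (θ γ) (h γ) (pmap c T n (ξ δ) (θ δ) (h δ) (mk c T n x))
    rw [pmap_mk, pmap_mk, pmap_mk, map_mul]
    rfl

theorem pact_mk (T : Set ℕ) (n : ℕ) (ξ : Γ →* MulAut (FreeGroup X)) (θ : Γ →* MulAut H)
    (h : ∀ γ x, c (ξ γ x) = θ γ (c x)) (γ : Γ) (x : FreeGroup X) :
    pact c T n ξ θ h γ (mk c T n x) = mk c T n (ξ γ x) := rfl

theorem proj_pact (T : Set ℕ) (n : ℕ) (ξ : Γ →* MulAut (FreeGroup X)) (θ : Γ →* MulAut H)
    (h : ∀ γ x, c (ξ γ x) = θ γ (c x)) (γ : Γ) (y : PCov c T n) :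
    proj c T n (pact c T n ξ θ h γ y) = θ γ (proj c T n y) := by
  obtain ⟨x, rfl⟩ := mk_surjective c T n y
  rw [pact_mk, proj_mk, proj_mk, h]

end action

end Pool.Agent.Q24.PS
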