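import Pool.Agent.Q24.PS.PGrp

/-!
# Fields which are projective up to a bounded order
-/

set_option autoImplicit false

namespace Pool.Agent.Q24.PS

universe u v w

open IntermediateField

section semidirect

variable {G : Type u} {Γ : Type v} [Group G] [Group Γ] (α : G →* Γ) (s : Γ →* G) (T : Set ℕ) (n : ℕ)

/-- The basis of the free group. -/
abbrev Basis (m : ℕ) : Type _ := (α.ker × Fin (m + 1)) × Γ

/-- The action of `Γ` on the free group. -/
def genAct (m : ℕ) : Γ →* MulAut (FreeGroup (Basis α m)) where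
  toFun γ := FreeGroup.freeGroupCongr ((Equiv.refl _).prodCongr (Equiv.mulLeft γ))
  map_one' := by
    ext x
    show FreeGroup.freeGroupCongr _ x = x
    induction x using FreeGroup.induction_on with
    | C1 => simp
    | of a => simp
    | inv_of a h => simp
    | mul a b ha hb => rw [map_mul, ha, hb]
  map_mul' γ δ := by
    ext x
    show FreeGroup.freeGroupCongr _ x = FreeGroup.freeGroupCongr _ (FreeGroup.freeGroupCongr _ x)
    induction x using FreeGroup.induction_on with
    | C1 => simp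
    | of a =>
      obtain ⟨a, b⟩ := a
      simp [mul_assoc]
    | inv_of a h =>
      obtain ⟨a, b⟩ := a
      simp [mul_assoc]
    | mul a b ha hb => rw [map_mul, map_mul, map_mul, ha, hb]

theorem genAct_of (m : ℕ) (γ : Γ) (x : Basis α m) :
    genAct α m γ (FreeGroup.of x) = FreeGroup.of (x.1, γ * x.2) := by
  obtain ⟨x, y⟩ := x
  show FreeGroup.freeGroupCongr _ (FreeGroup.of (x, y)) = _
  simp

/-- Conjugation by the section. -/
def conjAct : Γ →* MulAut α.ker := (MulAut.conjNormal (H := α.ker)).comp s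

theorem conjAct_coe (γ : Γ) (x : α.ker) : (conjAct α s γ x : G) = s γ * x * (s γ)⁻¹ := by
  simp [conjAct]

/-- The map of the free group to the kernel. -/
def relc (m : ℕ) : FreeGroup (Basis α m) →* α.ker :=
  FreeGroup.lift (fun x => conjAct α s x.2 x.1.1)

@[simp] theorem relc_of (m : ℕ) (x : Basis α m) :
    relc α s m (FreeGroup.of x) = conjAct α s x.2 x.1.1 := by
  simp [relc]

theorem relc_surjective (m : ℕ) : Function.Surjective (relc α s m) := by
  intro h
  refine ⟨FreeGroup.of ((h, 0), 1), ?_⟩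
  rw [relc_of, map_one]
  rfl

theorem relc_act (m : ℕ) (γ : Γ) (x : FreeGroup (Basis α m)) :
    relc α s m (genAct α m γ x) = conjAct α s γ (relc α s m x) := by
  have h1 : (relc α s m).comp (genAct α m γ).toMonoidHom =
      (conjAct α s γ).toMonoidHom.comp (relc α s m) := by
    refine FreeGroup.ext_hom _ _ ?_
    intro x
    show relc α s m (genAct α m γ (FreeGroup.of x)) = conjAct α s γ (relc α s m (FreeGroup.of x))
    rw [genAct_of, relc_of, relc_of, map_mul]
    rfl
  exact DFunLike.congr_fun h1 x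

/-- The action of `Γ` on the cover of the kernel of `α`. -/
noncomputable def relAct : Γ →* MulAut (PCov (relc α s n) T n) :=
  pact (relc α s n) T n (genAct α n) (conjAct α s) (relc_act α s n)

/-- The relative cover of the split extension `α` with section `s`. -/
abbrev RelCov : Type _ := PCov (relc α s n) T n ⋊[relAct α s T n] Γ

/-- The projection of the relative cover onto `G`. -/
noncomputable def relProj : RelCov α s T n →* G :=
  SemidirectProduct.lift (α.ker.subtype.comp (proj (relc α s n) T n)) s (by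
    intro γ
    ext a
    simp [relAct, proj_pact, conjAct_coe])

theorem relProj_inl (a : PCov (relc α s n) T n) :
    relProj α s T n (SemidirectProduct.inl a) = (proj (relc α s n) T n a : G) := by
  simp [relProj]

theorem relProj_inr (γ : Γ) : relProj α s T n (SemidirectProduct.inr γ) = s γ := by
  simp [relProj]

instance [Finite α.ker] [Finite Γ] : Finite (RelCov α s T n) :=
  Finite.of_equiv _ (SemidirectProduct.equivProd (φ := relAct α s T n)).symm

/-- Embedding problems which split over the section have proper solutions. -/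
theorem relWeak {T : Set ℕ} {n : ℕ} (hs : ∀ x, α (s x) = x) (A : Type w) [Group A] [Finite A]
    (β : A →* G) (hβ : Function.Surjective β) (s' : Γ →* A) (hs' : ∀ γ, β (s' γ) = s γ)
    (hc : Nat.card β.ker ≤ n) (hT : IsT T β.ker) :
    ∃ φ : RelCov α s T n →* A, Function.Surjective φ ∧ ∀ x, β (φ x) = relProj α s T n x := by
  classical
  have hch : ∀ h : α.ker, ∃ a : Fin (n + 1) → A, (∀ i, β (a i) = h) ∧
      ∀ b, β b = h → ∃ i, a i = b := by
    intro h
    obtain ⟨a0, ha0⟩ := hβ h
    have hne : Nonempty β.ker := ⟨1⟩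
    obtain ⟨q, hq⟩ : ∃ q : Fin (n + 1) → β.ker, Function.Surjective q := by
      have hk : Fintype β.ker := Fintype.ofFinite _
      rw [Nat.card_eq_fintype_card] at hc
      obtain ⟨e⟩ : Nonempty (β.ker ↪ Fin (n + 1)) :=
        Function.Embedding.nonempty_of_card_le (by simpa using hc.trans (Nat.le_succ n))
      exact ⟨Function.invFun e, Function.invFun_surjective e.injective⟩
    refine ⟨fun i => a0 * q i, fun i => ?_, fun b hb => ?_⟩
    · rw [map_mul, ha0, show β (q i : A) = 1 from (q i).2, mul_one]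
    · obtain ⟨i, hi⟩ := hq ⟨a0⁻¹ * b, by rw [MonoidHom.mem_ker, map_mul, map_inv, ha0, hb,
        inv_mul_cancel]⟩
      refine ⟨i, ?_⟩
      show a0 * (q i : A) = b
      rw [hi, mul_inv_cancel_left]
  choose a ha ha2 using hch
  let f : FreeGroup (Basis α n) →* A :=
    FreeGroup.lift (fun x => s' x.2 * a x.1.1 x.1.2 * (s' x.2)⁻¹)
  have hfof : ∀ x : Basis α n, f (FreeGroup.of x) = s' x.2 * a x.1.1 x.1.2 * (s' x.2)⁻¹ := by
    intro x
    simp [f]
  have hf : ∀ x, β (f x) = (relc α s n x : G) := by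
    have h1 : β.comp f = α.ker.subtype.comp (relc α s n) := by
      refine FreeGroup.ext_hom _ _ ?_
      intro x
      show β (f (FreeGroup.of x)) = (relc α s n (FreeGroup.of x) : G)
      rw [hfof, relc_of, conjAct_coe, map_mul, map_mul, map_inv, hs', ha]
    exact fun x => DFunLike.congr_fun h1 x
  have hfact : ∀ γ x, f (genAct α n γ x) = s' γ * f x * (s' γ)⁻¹ := by
    intro γ
    have h1 : f.comp (genAct α n γ).toMonoidHom = (MulAut.conj (s' γ)).toMonoidHom.comp f := by
      refine FreeGroup.ext_hom _ _ ?_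
      intro x
      show f (genAct α n γ (FreeGroup.of x)) = s' γ * f (FreeGroup.of x) * (s' γ)⁻¹
      rw [genAct_of, hfof, hfof, map_mul]
      group
    exact fun x => DFunLike.congr_fun h1 x
  have hker : N0 (relc α s n) T n ≤ f.ker := by
    intro x hx
    let ψ : Rel (relc α s n) →* β.ker := (f.comp (Rel (relc α s n)).subtype).codRestrict _
      (fun y => by
        rw [MonoidHom.mem_ker]
        show β (f y) = 1
        rw [hf]
        exact congrArg Subtype.val (show relc α s n y = 1 from y.2))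
    exact congrArg Subtype.val (kill hc hT ψ hx)
  let fb : PCov (relc α s n) T n →* A := QuotientGroup.lift (N0 (relc α s n) T n) f hker
  have hfb : ∀ x, fb (mk (relc α s n) T n x) = f x := fun x => rfl
  let φ : RelCov α s T n →* A := SemidirectProduct.lift fb s' (by
    intro γ
    ext y
    obtain ⟨x, rfl⟩ := mk_surjective (relc α s n) T n y
    show fb (pact (relc α s n) T n (genAct α n) (conjAct α s) (relc_act α s n) γ
      (mk (relc α s n) T n x)) = s' γ * fb (mk (relc α s n) T n x) * (s' γ)⁻¹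
    rw [pact_mk, hfb, hfb, hfact])
  have hφl : ∀ y, φ (SemidirectProduct.inl y) = fb y := fun y => SemidirectProduct.lift_inl _ _ _ _
  have hφr : ∀ y, φ (SemidirectProduct.inr y) = s' y := fun y => SemidirectProduct.lift_inr _ _ _ _
  refine ⟨φ, ?_, ?_⟩
  · intro b
    have h1 : β (b * (s' (α (β b)))⁻¹) ∈ α.ker := by
      rw [MonoidHom.mem_ker, map_mul, map_inv, hs', map_mul, map_inv, hs, mul_inv_cancel]
    obtain ⟨i, hi⟩ := ha2 ⟨_, h1⟩ (b * (s' (α (β b)))⁻¹) rfl
    refine ⟨SemidirectProduct.inl (mk (relc α s n) T n (FreeGroup.of ((⟨_, h1⟩, i), 1))) *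
      SemidirectProduct.inr (α (β b)), ?_⟩
    rw [map_mul, hφl, hφr, hfb, hfof]
    simp only [map_one, one_mul, inv_one, mul_one]
    rw [hi, inv_mul_cancel_right]
  · intro x
    conv_rhs => rw [← SemidirectProduct.inl_left_mul_inr_right x, map_mul, relProj_inl,
      relProj_inr]
    conv_lhs => rw [← SemidirectProduct.inl_left_mul_inr_right x, map_mul, hφl, hφr, map_mul, hs']
    congr 1
    obtain ⟨y, hy⟩ := mk_surjective (relc α s n) T n x.left
    rw [← hy, hfb, hf, proj_mk]

variable (hs : ∀ x, α (s x) = x)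
include hs

theorem relProj_surjective : Function.Surjective (relProj α s T n) := by
  intro g
  have h1 : g * (s (α g))⁻¹ ∈ α.ker := by
    rw [MonoidHom.mem_ker, map_mul, map_inv, hs, mul_inv_cancel]
  obtain ⟨c, hc⟩ := proj_surjective (relc α s n) T n (relc_surjective α s n) (⟨_, h1⟩ : α.ker)
  refine ⟨SemidirectProduct.inl c * SemidirectProduct.inr (α g), ?_⟩
  have h2 : (proj (relc α s n) T n c : G) = g * (s (α g))⁻¹ := congrArg Subtype.val hc
  rw [map_mul, relProj_inl, relProj_inr, h2, inv_mul_cancel_right]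

theorem alpha_relProj (x : RelCov α s T n) :
    α (relProj α s T n x) = SemidirectProduct.rightHom x := by
  have h2 : α (proj (relc α s n) T n x.left : G) = 1 := (proj (relc α s n) T n x.left).2
  conv_lhs => rw [← SemidirectProduct.inl_left_mul_inr_right x]
  rw [map_mul, map_mul, relProj_inl, relProj_inr, h2, hs, one_mul]
  rfl

end semidirect

/-- Let `Ω` be the algebraic closure of `F`.  Every embedding problem `β : A → Gal(F/E)`, whose
kernel has order at most `n` and only prime divisors in `T`, for a subgroup `D` of `Gal(Ω/E)` which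
is trivial on `L` has a continuous weak solution. -/
def ProjUpTo (T : Set ℕ) (n : ℕ) (E L F : Type*) [Field E] [Field L] [Field F] [Algebra E F]
    [Algebra L F] [Normal E F] : Prop :=
  ∀ D : Subgroup Gal((AlgebraicClosure F)/E),
    (∀ σ ∈ D, ∀ x : L, σ (algebraMap F (AlgebraicClosure F) (algebraMap L F x)) =
      algebraMap F (AlgebraicClosure F) (algebraMap L F x)) →
    ∀ (A : Type) [Group A] [Finite A] (β : A →* Gal(F/E)),
      D.map (AlgEquiv.restrictNormalHom F) ≤ β.range → Nat.card β.ker ≤ n → IsT T β.ker →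
      ∃ φ : D →* A, (∃ U : Subgroup Gal((AlgebraicClosure F)/E),
          IsOpen (U : Set Gal((AlgebraicClosure F)/E)) ∧ ∀ σ : D, σ.1 ∈ U → φ σ = 1) ∧
        ∀ σ : D, β (φ σ) = AlgEquiv.restrictNormalHom F σ.1

/-- Let `Ω` be the algebraic closure of `F`.  If `D` is a subgroup of `Gal(Ω/E)` which is trivial
on `L`, and its image in `Gal(F/E)` contains a noncyclic `p`-group, then `D` contains a subgroup
`D'` whose image in `Gal(F/E)` is a noncyclic `p`-group and which maps continuously onto all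
`p`-groups of order at most `n` with two generators. -/
def RichUpTo (p n : ℕ) (E L F : Type*) [Field E] [Field L] [Field F] [Algebra E F]
    [Algebra L F] [Normal E F] : Prop :=
  ∀ D : Subgroup Gal((AlgebraicClosure F)/E),
    (∀ σ ∈ D, ∀ x : L, σ (algebraMap F (AlgebraicClosure F) (algebraMap L F x)) =
      algebraMap F (AlgebraicClosure F) (algebraMap L F x)) →
    ∀ P : Subgroup Gal(F/E), P ≤ D.map (AlgEquiv.restrictNormalHom F) → IsPGroup p P →
      ¬ IsCyclic P →
      ∃ D' : Subgroup Gal((AlgebraicClosure F)/E), D' ≤ D ∧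
        D'.map (AlgEquiv.restrictNormalHom F) ≤ P ∧
        ¬ IsCyclic (D'.map (AlgEquiv.restrictNormalHom F) : Subgroup Gal(F/E)) ∧
        ∀ (Q : Type) [Group Q] [Finite Q] (a b : Q), Subgroup.closure {a, b} = ⊤ →
          IsPGroup p Q → Nat.card Q ≤ n →
          ∃ φ : D' →* Q, Function.Surjective φ ∧ ∃ U : Subgroup Gal((AlgebraicClosure F)/E),
            IsOpen (U : Set Gal((AlgebraicClosure F)/E)) ∧ ∀ σ : D', σ.1 ∈ U → φ σ = 1

theorem rich_of_proj {T : Set ℕ} {p n : ℕ} (hp : p.Prime) (hpT : p ∈ T) {E L F : Type*} [Field E]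
    [Field L] [Field F] [Algebra E F] [Algebra L F] [Normal E F] [FiniteDimensional E F]
    (h : ProjUpTo T n E L F) : RichUpTo p n E L F := by
  classical
  have hpf : Fact p.Prime := ⟨hp⟩
  intro D hD P hPD hP hPc
  obtain ⟨x, y, hxy⟩ := exists_pair hPc
  -- the group generated by `x` and `y`
  obtain ⟨P0, hP0⟩ : ∃ P0 : Subgroup Gal(F/E), P0 = Subgroup.closure {(x : Gal(F/E)), (y : Gal(F/E))} :=
    ⟨_, rfl⟩
  have hmap : P0 = (Subgroup.closure {x, y} : Subgroup P).map P.subtype := by
    rw [hP0, MonoidHom.map_closure, Set.image_pair]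
    rfl
  have hP0P : P0 ≤ P := by
    rw [hmap]
    exact Subgroup.map_subtype_le _
  have hP0c : ¬ IsCyclic P0 := by
    intro hc
    apply hxy
    let e := (Subgroup.closure {x, y} : Subgroup P).equivMapOfInjective P.subtype
      P.subtype_injective
    rw [hmap] at hc
    exact isCyclic_of_injective e.toMonoidHom e.injective
  have hP0p : IsPGroup p P0 := hP.to_le hP0P
  have hx0 : (x : Gal(F/E)) ∈ P0 := by
    rw [hP0]
    exact Subgroup.subset_closure (by simp)
  have hy0 : (y : Gal(F/E)) ∈ P0 := by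
    rw [hP0]
    exact Subgroup.subset_closure (by simp)
  -- its preimage
  let D' : Subgroup Gal((AlgebraicClosure F)/E) := D ⊓ P0.comap (AlgEquiv.restrictNormalHom F)
  have hD'map : D'.map (AlgEquiv.restrictNormalHom F) = P0 := by
    apply le_antisymm
    · rintro _ ⟨σ, hσ, rfl⟩
      exact hσ.2
    · intro g hg
      obtain ⟨σ, hσ, hσg⟩ := hPD (hP0P hg)
      refine ⟨σ, ⟨hσ, ?_⟩, hσg⟩
      rw [← hσg] at hg
      exact hg
  refine ⟨D', inf_le_left, by rw [hD'map]; exact hP0P, by rw [hD'map]; exact hP0c, ?_⟩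
  intro Q _ _ a b hab hQp hQn
  -- transfer of `P0` to the universe of finite groups
  obtain ⟨ι, hι⟩ := exists_perm P0 (Nat.card P0) le_rfl
  obtain ⟨K0, gk, fk, ⟨E0⟩⟩ : ∃ (K0 : Type) (_ : Group K0) (_ : Finite K0), Nonempty (P0 ≃* K0) :=
    ⟨ι.range, inferInstance, inferInstance, ⟨MonoidHom.ofInjective hι⟩⟩
  let x' : K0 := E0 ⟨x, hx0⟩
  let y' : K0 := E0 ⟨y, hy0⟩
  have hPk : IsPGroup p K0 := hP0p.of_equiv E0
  have hck : ¬ IsCyclic K0 := fun hc => hP0c (isCyclic_of_injective E0.toMonoidHom E0.injective)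
  let A : Subgroup (K0 × Q) := EE x' y' a b
  let β : A →* Gal(F/E) := P0.subtype.comp (E0.symm.toMonoidHom.comp
    ((MonoidHom.fst K0 Q).comp A.subtype))
  have hβ : ∀ z : A, β z = (E0.symm z.1.1 : Gal(F/E)) := fun z => rfl
  have hrange : P0 ≤ β.range := by
    rw [hP0, Subgroup.closure_le]
    rintro z hz
    rcases hz with rfl | rfl
    · refine ⟨⟨(x', a), Subgroup.subset_closure (by simp)⟩, ?_⟩
      rw [hβ]
      show ((E0.symm (E0 ⟨x, hx0⟩) : P0) : Gal(F/E)) = x
      rw [MulEquiv.symm_apply_apply]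
    · refine ⟨⟨(y', b), Subgroup.subset_closure (by simp)⟩, ?_⟩
      rw [hβ]
      show ((E0.symm (E0 ⟨y, hy0⟩) : P0) : Gal(F/E)) = y
      rw [MulEquiv.symm_apply_apply]
  let κ : β.ker →* Q := (MonoidHom.snd K0 Q).comp (A.subtype.comp β.ker.subtype)
  have hκ : Function.Injective κ := by
    rw [injective_iff_map_eq_one]
    rintro ⟨⟨⟨z, q⟩, hz⟩, hk⟩ h1
    have h2 : q = 1 := h1
    have h3 : ((E0.symm z : P0) : Gal(F/E)) = 1 := hk
    have h4 : E0.symm z = 1 := Subtype.ext h3
    have h5 : z = 1 := by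
      rw [← E0.apply_symm_apply z, h4, map_one]
    apply Subtype.ext
    apply Subtype.ext
    exact Prod.ext h5 h2
  have hcard : Nat.card β.ker ≤ n := (Nat.card_le_card_of_injective κ hκ).trans hQn
  have hkT : IsT T β.ker := by
    intro r hr hrd
    have h1 : IsPGroup p β.ker := hQp.of_injective κ hκ
    obtain ⟨m, hm⟩ := IsPGroup.iff_card.1 h1
    rw [hm] at hrd
    have h2 : r = p := (Nat.prime_dvd_prime_iff_eq hr hp).1 (hr.dvd_of_dvd_pow hrd)
    rw [h2]
    exact hpT
  obtain ⟨φ, ⟨U, hU, hUφ⟩, hφ⟩ := h D' (fun σ hσ => hD σ hσ.1) A β (by rw [hD'map]; exact hrange)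
    hcard hkT
  refine ⟨(MonoidHom.snd K0 Q).comp (A.subtype.comp φ), ?_, U, hU, ?_⟩
  · have hle : EE x' y' a b ≤ φ.range.map A.subtype := by
      refine EE_le hPk hQp x' y' hck a b _ ?_
      intro t
      have h1 : ((E0.symm t : P0) : Gal(F/E)) ∈ D'.map (AlgEquiv.restrictNormalHom F) := by
        rw [hD'map]
        exact (E0.symm t).2
      obtain ⟨σ, hσ, hσt⟩ := h1
      have h2 := hφ ⟨σ, hσ⟩
      refine ⟨(φ ⟨σ, hσ⟩ : K0 × Q), ⟨φ ⟨σ, hσ⟩, ⟨_, rfl⟩, rfl⟩, ?_, (φ ⟨σ, hσ⟩).2⟩
      rw [hβ] at h2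
      have h3 : E0.symm (φ ⟨σ, hσ⟩).1.1 = E0.symm t := Subtype.ext (h2.trans hσt)
      exact E0.symm.injective h3
    intro q
    have hq : q ∈ Subgroup.closure {a, b} := by rw [hab]; trivial
    have h6 : ∃ t, (t, q) ∈ EE x' y' a b := by
      refine Subgroup.closure_induction (p := fun q _ => ∃ t, (t, q) ∈ EE x' y' a b) ?_ ?_ ?_ ?_ hq
      · intro z hz
        rcases hz with rfl | rfl
        · exact ⟨x', Subgroup.subset_closure (by simp)⟩
        · exact ⟨y', Subgroup.subset_closure (by simp)⟩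
      · exact ⟨1, Subgroup.one_mem _⟩
      · rintro z1 z2 _ _ ⟨t1, h1⟩ ⟨t2, h2⟩
        exact ⟨t1 * t2, Subgroup.mul_mem _ h1 h2⟩
      · rintro z1 _ ⟨t1, h1⟩
        exact ⟨t1⁻¹, Subgroup.inv_mem _ h1⟩
    obtain ⟨t, ht⟩ := h6
    obtain ⟨z, ⟨σ, hσ⟩, hz⟩ := hle ht
    refine ⟨σ, ?_⟩
    show (φ σ).1.2 = q
    rw [hσ]
    exact congrArg Prod.snd hz
  · intro σ hσ
    show (φ σ).1.2 = 1
    rw [hUφ σ hσ]
    rfl

end Pool.Agent.Q24.PS
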