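import Pool.Agent.Q24.PS.ZB

/-!
# Project PS: job GB (masses)
-/

set_option autoImplicit false

open Finset Polynomial ComplexConjugate
open Pool.Agent.H341R2.Sharp (Mon mem_Mon)
open Pool.Agent.Q284.PS

namespace Pool.Agent.Q24.PS

lemma HH_add {d i n : ℕ} (hd : 1 ≤ d) (hi : i ≤ n) : HH d i + HH d (n - i) ≤ HH d n + 1 := by
  unfold HH
  have h1 : (2 * i + d - 1) / d + (2 * (n - i) + d - 1) / d ≤ ((2 * i + d - 1) + (2 * (n - i) + d - 1)) / d :=
    Nat.div_add_div_le_add_div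
  have h2 : ((2 * i + d - 1) + (2 * (n - i) + d - 1)) / d ≤ (2 * n + d - 1 + d) / d :=
    Nat.div_le_div_right (by omega)
  have h3 : (2 * n + d - 1 + d) / d = (2 * n + d - 1) / d + 1 := Nat.add_div_right _ (by omega)
  omega

lemma om_mul {q : ℝ} (hq : 1 ≤ q) {d i n : ℕ} (hd : 1 ≤ d) (hn : 1 ≤ n) (h1 : n ≤ 4 * i) (h2 : 4 * i ≤ 3 * n) :
    om q d i * om q d (n - i) ≤ 10 ^ 4 * (16 / 3) ^ 4 / (n : ℝ) ^ 4 * om q d n := by
  have hin : i ≤ n := by omega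
  have hnr : (1 : ℝ) ≤ n := by exact_mod_cast hn
  have hir : (n : ℝ) ≤ 4 * i := by exact_mod_cast h1
  have hir2 : 4 * (i : ℝ) ≤ 3 * n := by exact_mod_cast h2
  have hqp : 0 < q := by linarith
  have hsub : ((n - i : ℕ) : ℝ) = n - i := by
    rw [Nat.cast_sub hin]
  have hi0 : (0 : ℝ) < i := by linarith
  have hni : (0 : ℝ) < (n : ℝ) - i := by linarith
  have hprod : 3 / 16 * (n : ℝ) ^ 2 ≤ i * (n - i) := by nlinarith
  unfold om
  rw [hsub]
  have e1 : (10000 : ℝ) ^ HH d i * 10000 ^ HH d (n - i) ≤ 10000 * 10000 ^ HH d n := by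
    rw [← pow_add, ← pow_succ']
    exact pow_le_pow_right₀ (by norm_num) (HH_add hd hin)
  have e2 : q ^ ((i : ℝ) / 4) * q ^ (((n : ℝ) - i) / 4) = q ^ ((n : ℝ) / 4) := by
    rw [← Real.rpow_add hqp]
    congr 1
    ring
  have e3 : (3 / 16 * (n : ℝ) ^ 2) ^ 4 ≤ (i : ℝ) ^ 4 * ((n : ℝ) - i) ^ 4 := by
    rw [← mul_pow]
    exact pow_le_pow_left₀ (by positivity) hprod 4
  have hQ : 0 < q ^ ((n : ℝ) / 4) := by positivity
  calc 10000 ^ HH d i * q ^ ((i : ℝ) / 4) / (i : ℝ) ^ 4 *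
        (10000 ^ HH d (n - i) * q ^ (((n : ℝ) - i) / 4) / ((n : ℝ) - i) ^ 4) =
      (10000 ^ HH d i * 10000 ^ HH d (n - i)) * (q ^ ((i : ℝ) / 4) * q ^ (((n : ℝ) - i) / 4)) /
        ((i : ℝ) ^ 4 * ((n : ℝ) - i) ^ 4) := by
        field_simp
    _ ≤ (10000 * 10000 ^ HH d n) * q ^ ((n : ℝ) / 4) / (3 / 16 * (n : ℝ) ^ 2) ^ 4 := by
        rw [e2]
        apply div_le_div₀ (by positivity) _ (by positivity) e3
        exact mul_le_mul_of_nonneg_right e1 hQ.le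
    _ = _ := by
        field_simp
        norm_num

section main

variable {F : Type} [Field F] [Fintype F]

omit [Fintype F] in
lemma nm1 (hM : S_MUL) {d : ℕ} (hd : 2 ≤ d) (a : F[X] → ℂ) : NMul (fun f : F[X] => ‖aF d a f‖) := by
  obtain ⟨h1, h2, _⟩ := hM F d a hd
  refine ⟨?_, fun f _ => norm_nonneg _, fun f h hf hh hfh => ?_⟩
  · simp only [h1, norm_one]
  · simp only [h2 f h hf hh hfh, norm_mul]

omit [Fintype F] in
lemma nm2 (hM : S_MUL) {d : ℕ} (hd : 2 ≤ d) (a : F[X] → ℂ) : NMul (fun f : F[X] => ‖aF d a f‖ ^ 2) := by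
  obtain ⟨h1, h2, _⟩ := hM F d a hd
  refine ⟨?_, fun f _ => by positivity, fun f h hf hh hfh => ?_⟩
  · simp only [h1, norm_one, one_pow]
  · simp only [h2 f h hf hh hfh, norm_mul, mul_pow]

lemma Mon_zero : Mon F 0 = {1} := by
  ext f
  rw [mem_Mon, mem_singleton]
  constructor
  · rintro ⟨h1, h2⟩
    exact (Polynomial.Monic.natDegree_eq_zero h1).1 h2
  · rintro rfl
    exact ⟨monic_one, natDegree_one⟩

theorem gb_core (hR : S_REC) (hGI : S_GI) (hWC : S_WC) (hM : S_MUL) {d : ℕ} (hd : 2 ≤ d)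
    (hq : 3 ≤ qq F) {N : ℕ} {a : F[X] → ℂ}
    (hZ : ∀ j : ℕ, 1 ≤ j → j ≤ N →
      ∑ P ∈ PD F j, ‖hh d (a P) (j / P.natDegree)‖ ≤ 2 * BB * ww (qq F) d j ∧
      ∑ P ∈ PD F j, ‖hh d (a P) (j / P.natDegree)‖ ^ 2 ≤ 2 * BB ^ 2 * om (qq F) d j) :
    ∀ n : ℕ, 1 ≤ n → n ≤ N → ∑ f ∈ Mon F n, ‖aF d a f‖ ≤ 5 / 2 * BB * ww (qq F) d n ∧
      ∑ f ∈ Mon F n, ‖aF d a f‖ ^ 2 ≤ 5 / 2 * BB ^ 2 * om (qq F) d n := by
  have hqp : 0 < qq F := by linarith
  obtain ⟨m1, m2, m3⟩ := hM F d a hd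
  have hPD : ∀ j : ℕ, ∀ P ∈ PD F j, aF d a (P ^ (j / P.natDegree)) = hh d (a P) (j / P.natDegree) := by
    intro j P hP
    rw [mem_PD] at hP
    exact m3 P _ hP.1.1 hP.2.1
  intro n hn1 hn
  constructor
  · have key := hGI (fun n => ∑ f ∈ Mon F n, ‖aF d a f‖)
      (fun j => ∑ P ∈ PD F j, ‖hh d (a P) (j / P.natDegree)‖) (fun n => ww (qq F) d n) (2 * BB) 1600 N
      (by unfold BB; norm_num) (by unfold BB; norm_num) (by
        simp only [Mon_zero, sum_singleton, m1, norm_one])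
      (fun n => sum_nonneg fun _ _ => norm_nonneg _) (fun n => sum_nonneg fun _ _ => norm_nonneg _)
      (fun n => by unfold ww; positivity) (fun n _ _ => (hWC (qq F) d n hq (by omega)).1)
      (fun n h1 h2 => (hZ n h1 h2).1) (fun n h1 h2 => by
        have h3 := hR F (fun f : F[X] => ‖aF d a f‖) (nm1 hM hd a) n h1
        refine h3.trans (le_of_eq ?_)
        apply sum_congr rfl
        intro j _
        congr 2
        exact sum_congr rfl fun P hP => by rw [hPD j P hP]) n hn1 hn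
    refine key.trans (le_of_eq ?_)
    ring
  · have key := hGI (fun n => ∑ f ∈ Mon F n, ‖aF d a f‖ ^ 2)
      (fun j => ∑ P ∈ PD F j, ‖hh d (a P) (j / P.natDegree)‖ ^ 2) (fun n => om (qq F) d n) (2 * BB ^ 2) 350000 N
      (by unfold BB; norm_num) (by unfold BB; norm_num) (by
        simp only [Mon_zero, sum_singleton, m1, norm_one, one_pow])
      (fun n => sum_nonneg fun _ _ => by positivity) (fun n => sum_nonneg fun _ _ => by positivity)
      (fun n => by unfold om; positivity) (fun n _ _ => (hWC (qq F) d n hq (by omega)).2)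
      (fun n h1 h2 => (hZ n h1 h2).2) (fun n h1 h2 => by
        have h3 := hR F (fun f : F[X] => ‖aF d a f‖ ^ 2) (nm2 hM hd a) n h1
        refine h3.trans (le_of_eq ?_)
        apply sum_congr rfl
        intro j _
        congr 2
        exact sum_congr rfl fun P hP => by rw [hPD j P hP]) n hn1 hn
    refine key.trans (le_of_eq ?_)
    ring

end main

theorem t_GB : S_REC → S_GI → S_WC → S_ZB → S_MUL → S_T2 → S_GB := by
  intro hR hGI hWC ⟨d₁, hZB⟩ hM hT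
  refine ⟨max d₁ 80, fun d hd F _ _ hF N a hG => ?_⟩
  have hd1 : d₁ ≤ d := (le_max_left _ _).trans hd
  have hd2 : 80 ≤ d := (le_max_right _ _).trans hd
  have hq := three_le (F := F) hF
  have hqp : 0 < qq F := by linarith
  have hZ := fun j h1 h2 => hZB d hd1 F hF N a hG j h1 h2
  have hcore := gb_core hR hGI hWC hM (by omega) hq (N := N) (a := a) (fun j h1 h2 => ⟨(hZ j h1 h2).1, (hZ j h1 h2).2.1⟩)
  intro n hn1 hn
  refine ⟨(hcore n hn1 hn).1, (hcore n hn1 hn).2, fun hdn => ?_⟩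
  obtain ⟨m1, m2, m3⟩ := hM F d a (by omega)
  have hn40 : (40 : ℝ) ≤ n := by exact_mod_cast (by omega : 40 ≤ n)
  have hnp : (0 : ℝ) < n := by linarith
  have hB : 0 < BB := by
    unfold BB
    norm_num
  obtain ⟨W, hW⟩ : ∃ W : ℝ, W = om (qq F) d n := ⟨_, rfl⟩
  have hW0 : 0 < W := by
    rw [hW]
    exact om_pos hqp d hn1
  obtain ⟨G, hGd⟩ : ∃ G : ℕ → ℝ, G = fun m => ∑ f ∈ Mon F m, ‖aF d a f‖ ^ 2 := ⟨_, rfl⟩
  have hG0 : G 0 = 1 := by
    rw [hGd]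
    simp only [Mon_zero, sum_singleton, m1, norm_one, one_pow]
  have hGn : ∀ m, 0 ≤ G m := by
    intro m
    rw [hGd]
    exact sum_nonneg fun _ _ => by positivity
  have hG1 : ∀ m, 1 ≤ m → m ≤ N → G m ≤ 5 / 2 * BB ^ 2 * om (qq F) d m := by
    intro m h1 h2
    rw [hGd]
    exact (hcore m h1 h2).2
  have key := hT F (fun f : F[X] => ‖aF d a f‖ ^ 2) (nm2 hM (by omega) a) n hn1
  refine key.trans ?_
  rw [← hW]
  -- the first sum
  have s1 : ∑ j ∈ (Icc 1 n).filter (fun j => n < 2 * j),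
      (∑ P ∈ (PD F j).filter (fun P => P.natDegree < j), ‖aF d a (P ^ (j / P.natDegree))‖ ^ 2) *
        ∑ f ∈ Mon F (n - j), ‖aF d a f‖ ^ 2 ≤ 3 / 10 ^ 6 * (BB ^ 2 * W / n) := by
    have h1 : ∀ j ∈ (Icc 1 n).filter (fun j => n < 2 * j),
        (∑ P ∈ (PD F j).filter (fun P => P.natDegree < j), ‖aF d a (P ^ (j / P.natDegree))‖ ^ 2) *
          ∑ f ∈ Mon F (n - j), ‖aF d a f‖ ^ 2 ≤ 2 * BB ^ 2 / (10 ^ 6 * n) * (om (qq F) d j * G (n - j)) := by
      intro j hj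
      rw [mem_filter, mem_Icc] at hj
      obtain ⟨⟨j1, j2⟩, j3⟩ := hj
      have h2 : ∑ P ∈ (PD F j).filter (fun P => P.natDegree < j), ‖aF d a (P ^ (j / P.natDegree))‖ ^ 2 =
          ∑ P ∈ (PD F j).filter (fun P => P.natDegree < j), ‖hh d (a P) (j / P.natDegree)‖ ^ 2 := by
        apply sum_congr rfl
        intro P hP
        rw [mem_filter, mem_PD] at hP
        rw [m3 P _ hP.1.1.1 hP.1.2.1]
      have h3 := (hZ j j1 (by omega)).2.2
      have hjp : (0 : ℝ) < j := by exact_mod_cast j1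
      have hj3 : (n : ℝ) ≤ 2 * j := by exact_mod_cast j3.le
      have hom := om_pos hqp d j1
      have h4 : BB ^ 2 * om (qq F) d j / (10 ^ 6 * j) ≤ 2 * BB ^ 2 / (10 ^ 6 * n) * om (qq F) d j := by
        have h5 : 2 * BB ^ 2 / (10 ^ 6 * n) * om (qq F) d j = BB ^ 2 * om (qq F) d j / (10 ^ 6 * (n / 2)) := by
          field_simp
        rw [h5]
        apply div_le_div_of_nonneg_left (by positivity) (by positivity)
        linarith
      have h5 : (∑ f ∈ Mon F (n - j), ‖aF d a f‖ ^ 2) = G (n - j) := by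
        rw [hGd]
      rw [h2, h5, ← mul_assoc]
      exact mul_le_mul_of_nonneg_right (h3.trans h4) (hGn _)
    refine (sum_le_sum h1).trans ?_
    have h2 : ∑ j ∈ (Icc 1 n).filter (fun j => n < 2 * j), 2 * BB ^ 2 / (10 ^ 6 * n) * (om (qq F) d j * G (n - j)) ≤
        ∑ j ∈ Icc 1 n, 2 * BB ^ 2 / (10 ^ 6 * n) * (om (qq F) d j * G (n - j)) := by
      apply sum_le_sum_of_subset_of_nonneg (filter_subset _ _)
      intro j hj _
      rw [mem_Icc] at hj
      have hom := om_pos hqp d hj.1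
      have := hGn (n - j)
      positivity
    refine h2.trans ?_
    rw [← mul_sum]
    have h3 : ∑ j ∈ Icc 1 n, om (qq F) d j * G (n - j) ≤ 5 / 2 * BB ^ 2 * (350000 * W) + W := by
      obtain ⟨m, hm⟩ : ∃ m, n = m + 1 := ⟨n - 1, by omega⟩
      have h4 : ∑ j ∈ Icc 1 n, om (qq F) d j * G (n - j) =
          ∑ j ∈ Icc 1 (n - 1), om (qq F) d j * G (n - j) + om (qq F) d n * G (n - n) := by
        conv_lhs => rw [hm, sum_Icc_succ_top (by omega)]
        rw [hm, Nat.add_sub_cancel]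
      rw [h4, Nat.sub_self, hG0, mul_one, ← hW]
      have h5 : ∑ j ∈ Icc 1 (n - 1), om (qq F) d j * G (n - j) ≤
          ∑ j ∈ Icc 1 (n - 1), 5 / 2 * BB ^ 2 * (om (qq F) d j * om (qq F) d (n - j)) := by
        apply sum_le_sum
        intro j hj
        rw [mem_Icc] at hj
        have hom := om_pos hqp d hj.1
        have h6 := hG1 (n - j) (by omega) (by omega)
        have h7 := mul_le_mul_of_nonneg_left h6 hom.le
        linarith
      rw [← mul_sum] at h5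
      have h6 := (hWC (qq F) d n hq (by omega)).2
      rw [← hW] at h6
      have h7 := mul_le_mul_of_nonneg_left h6 (show 0 ≤ 5 / 2 * BB ^ 2 by positivity)
      linarith
    have h4 : 5 / 2 * BB ^ 2 * (350000 * W) + W ≤ 3 / 2 * W := by
      unfold BB
      nlinarith
    calc 2 * BB ^ 2 / (10 ^ 6 * n) * ∑ j ∈ Icc 1 n, om (qq F) d j * G (n - j) ≤
        2 * BB ^ 2 / (10 ^ 6 * n) * (3 / 2 * W) := mul_le_mul_of_nonneg_left (h3.trans h4) (by positivity)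
      _ = _ := by
          field_simp
  -- the second sum
  have s2 : ∑ i ∈ (Icc 1 n).filter (fun i => n ≤ 4 * i ∧ 4 * i ≤ 3 * n),
      (∑ f ∈ Mon F i, ‖aF d a f‖ ^ 2) * ∑ f ∈ Mon F (n - i), ‖aF d a f‖ ^ 2 ≤
        97 / 10 ^ 6 * (BB ^ 2 * W / n) := by
    have h1 : ∀ i ∈ (Icc 1 n).filter (fun i => n ≤ 4 * i ∧ 4 * i ≤ 3 * n),
        (∑ f ∈ Mon F i, ‖aF d a f‖ ^ 2) * ∑ f ∈ Mon F (n - i), ‖aF d a f‖ ^ 2 ≤
          25 / 4 * BB ^ 4 * (10 ^ 4 * (16 / 3) ^ 4 / (n : ℝ) ^ 4 * W) := by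
      intro i hi
      rw [mem_filter, mem_Icc] at hi
      obtain ⟨⟨i1, i2⟩, i3, i4⟩ := hi
      have h2 := hG1 i i1 (by omega)
      have h3 := hG1 (n - i) (by omega) (by omega)
      have h4 := om_mul (q := qq F) (by linarith) (d := d) (by omega) hn1 i3 i4
      rw [← hW] at h4
      have h5 : (∑ f ∈ Mon F i, ‖aF d a f‖ ^ 2) = G i := by rw [hGd]
      have h6 : (∑ f ∈ Mon F (n - i), ‖aF d a f‖ ^ 2) = G (n - i) := by rw [hGd]
      rw [h5, h6]
      have ho1 := om_pos hqp d i1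
      have h7 : G i * G (n - i) ≤ (5 / 2 * BB ^ 2 * om (qq F) d i) * (5 / 2 * BB ^ 2 * om (qq F) d (n - i)) :=
        mul_le_mul h2 h3 (hGn _) (by positivity)
      have h8 := mul_le_mul_of_nonneg_left h4 (show 0 ≤ 25 / 4 * BB ^ 4 by positivity)
      calc G i * G (n - i) ≤ (5 / 2 * BB ^ 2 * om (qq F) d i) * (5 / 2 * BB ^ 2 * om (qq F) d (n - i)) := h7
        _ = 25 / 4 * BB ^ 4 * (om (qq F) d i * om (qq F) d (n - i)) := by ring
        _ ≤ _ := h8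
    refine (sum_le_sum h1).trans ?_
    rw [sum_const, nsmul_eq_mul]
    have h2 : (((Icc 1 n).filter (fun i => n ≤ 4 * i ∧ 4 * i ≤ 3 * n)).card : ℝ) ≤ n := by
      have h3 := card_filter_le (Icc 1 n) (fun i => n ≤ 4 * i ∧ 4 * i ≤ 3 * n)
      rw [Nat.card_Icc, Nat.add_sub_cancel] at h3
      exact_mod_cast h3
    have h3 : (n : ℝ) * (25 / 4 * BB ^ 4 * (10 ^ 4 * (16 / 3) ^ 4 / (n : ℝ) ^ 4 * W)) =
        25 / 4 * (10 ^ 4 * (16 / 3) ^ 4) * BB ^ 2 / (n : ℝ) ^ 2 * (BB ^ 2 * W / n) := by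
      field_simp
    have h4 : 25 / 4 * (10 ^ 4 * (16 / 3) ^ 4) * BB ^ 2 / (n : ℝ) ^ 2 ≤ 97 / 10 ^ 6 := by
      rw [div_le_iff₀ (by positivity)]
      have h5 : (1600 : ℝ) ≤ (n : ℝ) ^ 2 := by nlinarith
      unfold BB
      nlinarith
    calc _ ≤ (n : ℝ) * (25 / 4 * BB ^ 4 * (10 ^ 4 * (16 / 3) ^ 4 / (n : ℝ) ^ 4 * W)) :=
          mul_le_mul_of_nonneg_right h2 (by positivity)
      _ = 25 / 4 * (10 ^ 4 * (16 / 3) ^ 4) * BB ^ 2 / (n : ℝ) ^ 2 * (BB ^ 2 * W / n) := h3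
      _ ≤ _ := mul_le_mul_of_nonneg_right h4 (by positivity)
  have h9 : 0 ≤ BB ^ 2 * W / n := by positivity
  linarith

end Pool.Agent.Q24.PS
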