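import Pool.Agent.Q24.PS.Cover

/-!
# Weak solutions for noncyclic p-groups are surjective
-/

set_option autoImplicit false

namespace Pool.Agent.Q24.PS

universe u v w

open Multiplicative (toAdd ofAdd)

/-- characters of `p`-groups -/
theorem exists_char {p : ℕ} [hp : Fact p.Prime] {G : Type*} [Group G] [Finite G]
    (hG : IsPGroup p G) (H : Subgroup G) (hH : H ≠ ⊤) :
    ∃ χ : G →* Multiplicative (ZMod p), H ≤ χ.ker ∧ ∃ g, χ g ≠ 1 := by
  obtain ⟨m, hm⟩ := IsPGroup.iff_card.1 hG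
  obtain ⟨k, hk⟩ := IsPGroup.iff_card.1 (hG.to_subgroup H)
  have hlt : Nat.card H < Nat.card G := by
    refine lt_of_le_of_ne (Nat.le_of_dvd Nat.card_pos (Subgroup.card_subgroup_dvd_card H)) ?_
    intro h
    exact hH (Subgroup.eq_top_of_card_eq H h)
  rw [hm, hk] at hlt
  have hkm : k < m := (Nat.pow_lt_pow_iff_right hp.out.one_lt).1 hlt
  obtain ⟨K, hK1, hK2⟩ := Sylow.exists_subgroup_card_pow_prime_le p (m := m - 1)
    (by rw [hm]; exact pow_dvd_pow p (Nat.sub_le _ _)) H hk (by omega)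
  have hidx : K.index = p := by
    have h1 := K.card_mul_index
    rw [hK1, hm] at h1
    have h2 : p ^ m = p ^ (m - 1) * p := by
      rw [← pow_succ]
      congr 1
      omega
    rw [h2] at h1
    exact Nat.eq_of_mul_eq_mul_left (pow_pos hp.out.pos _) h1
  have hnor : K.Normal := by
    apply Subgroup.normal_of_index_eq_minFac_card
    rw [hidx, hm, Nat.Prime.pow_minFac hp.out (by omega)]
  have hcard : Nat.card (G ⧸ K) = Nat.card (Multiplicative (ZMod p)) := by
    have h1 : Nat.card (Multiplicative (ZMod p)) = p := by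
      rw [Nat.card_congr (Multiplicative.toAdd (α := ZMod p)), Nat.card_zmod]
    rw [h1]
    exact hidx
  have hcp : Nat.card (Multiplicative (ZMod p)) = p := by
    rw [Nat.card_congr (Multiplicative.toAdd (α := ZMod p)), Nat.card_zmod]
  let e : G ⧸ K ≃* Multiplicative (ZMod p) := mulEquivOfPrimeCardEq (hcard.trans hcp) hcp
  refine ⟨e.toMonoidHom.comp (QuotientGroup.mk' K), ?_, ?_⟩
  · intro x hx
    rw [MonoidHom.mem_ker, MonoidHom.comp_apply]
    have : QuotientGroup.mk' K x = 1 := (QuotientGroup.eq_one_iff x).2 (hK2 hx)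
    rw [this, map_one]
  · by_contra hcon
    push Not at hcon
    have hKtop : K = ⊤ := by
      rw [eq_top_iff]
      intro x _
      have h1 := hcon x
      rw [MonoidHom.comp_apply] at h1
      have h2 : QuotientGroup.mk' K x = 1 := e.injective (by rw [map_one]; exact h1)
      exact (QuotientGroup.eq_one_iff x).1 h2
    rw [hKtop, Subgroup.index_top] at hidx
    exact hp.out.one_lt.ne hidx

theorem prodP {p : ℕ} {P Q : Type*} [Group P] [Group Q]
    (hP : IsPGroup p P) (hQ : IsPGroup p Q) : IsPGroup p (P × Q) := by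
  intro g
  obtain ⟨k1, h1⟩ := hP g.1
  obtain ⟨k2, h2⟩ := hQ g.2
  refine ⟨k1 + k2, Prod.ext ?_ ?_⟩
  · rw [Prod.pow_fst, pow_add, pow_mul, h1, one_pow]
    rfl
  · rw [Prod.pow_snd, pow_add, mul_comm, pow_mul, h2, one_pow]
    rfl

/-- the fibre product generated by two pairs -/
def EE {P Q : Type*} [Group P] [Group Q] (x y : P) (a b : Q) : Subgroup (P × Q) :=
  Subgroup.closure {(x, a), (y, b)}

theorem EE_le {p : ℕ} [hp : Fact p.Prime] {P Q : Type*} [Group P] [Group Q] [Finite P] [Finite Q]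
    (hP : IsPGroup p P) (hQ : IsPGroup p Q) (x y : P)
    (hnc : ¬ IsCyclic P) (a b : Q) (E' : Subgroup (P × Q))
    (hE' : ∀ t : P, ∃ e ∈ E', e.1 = t ∧ e ∈ EE x y a b) : EE x y a b ≤ E' := by
  classical
  have hEP : IsPGroup p (EE x y a b) := (prodP hP hQ).to_subgroup _
  by_contra hcon
  -- characters of `P`
  have hPn : (⊥ : Subgroup P) ≠ ⊤ := by
    intro h
    apply hnc
    have : Subsingleton P := by
      constructor
      intro s t
      have hs : s ∈ (⊥ : Subgroup P) := by rw [h]; trivial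
      have ht : t ∈ (⊥ : Subgroup P) := by rw [h]; trivial
      rw [Subgroup.mem_bot] at hs ht
      rw [hs, ht]
    infer_instance
  obtain ⟨χ1, -, z, hz1⟩ := exists_char hP ⊥ hPn
  have hzn : Subgroup.zpowers z ≠ ⊤ := by
    intro h
    exact hnc (isCyclic_iff_exists_zpowers_eq_top.2 ⟨z, h⟩)
  obtain ⟨χ2, hz2, s, hs⟩ := exists_char hP (Subgroup.zpowers z) hzn
  have hz2' : χ2 z = 1 := hz2 (Subgroup.mem_zpowers z)
  -- a character of the fibre product
  have hne : E'.subgroupOf (EE x y a b) ≠ ⊤ := by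
    intro h
    rw [Subgroup.subgroupOf_eq_top] at h
    exact hcon h
  obtain ⟨χ3, h3, t, ht⟩ := exists_char hEP _ hne
  -- a relation
  have hx : (x, a) ∈ EE x y a b := Subgroup.subset_closure (by simp)
  have hy : (y, b) ∈ EE x y a b := Subgroup.subset_closure (by simp)
  let M : Matrix (Fin 3) (Fin 3) (ZMod p) :=
    !![toAdd (χ1 x), toAdd (χ2 x), toAdd (χ3 ⟨_, hx⟩);
      toAdd (χ1 y), toAdd (χ2 y), toAdd (χ3 ⟨_, hy⟩); 0, 0, 0]
  have hdet : M.det = 0 := Matrix.det_eq_zero_of_row_eq_zero 2 (by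
    intro j
    fin_cases j <;> rfl)
  obtain ⟨c, hc0, hc⟩ := Matrix.exists_mulVec_eq_zero_iff.2 hdet
  have r1 : toAdd (χ1 x) * c 0 + toAdd (χ2 x) * c 1 + toAdd (χ3 ⟨_, hx⟩) * c 2 = 0 := by
    have := congrFun hc 0
    simpa [M, Matrix.mulVec, dotProduct, Fin.sum_univ_three] using this
  have r2 : toAdd (χ1 y) * c 0 + toAdd (χ2 y) * c 1 + toAdd (χ3 ⟨_, hy⟩) * c 2 = 0 := by
    have := congrFun hc 1
    simpa [M, Matrix.mulVec, dotProduct, Fin.sum_univ_three] using this
  have hall : ∀ e (he : e ∈ EE x y a b),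
      toAdd (χ1 e.1) * c 0 + toAdd (χ2 e.1) * c 1 + toAdd (χ3 ⟨e, he⟩) * c 2 = 0 := by
    intro e he
    refine Subgroup.closure_induction (p := fun e he => toAdd (χ1 e.1) * c 0 +
      toAdd (χ2 e.1) * c 1 + toAdd (χ3 ⟨e, he⟩) * c 2 = 0) ?_ ?_ ?_ ?_ he
    · intro g hg
      rcases hg with rfl | rfl
      · exact r1
      · exact r2
    · have h0 : χ3 ⟨1, Subgroup.one_mem _⟩ = 1 := map_one χ3
      simp [h0]
    · intro g h hg hh i1 i2
      have h0 : χ3 ⟨g * h, Subgroup.mul_mem _ hg hh⟩ = χ3 ⟨g, hg⟩ * χ3 ⟨h, hh⟩ :=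
        map_mul χ3 (⟨g, hg⟩ : EE x y a b) ⟨h, hh⟩
      rw [Prod.fst_mul, map_mul χ1, map_mul χ2, h0, toAdd_mul, toAdd_mul, toAdd_mul]
      linear_combination i1 + i2
    · intro g hg i1
      have h0 : χ3 ⟨g⁻¹, Subgroup.inv_mem _ hg⟩ = (χ3 ⟨g, hg⟩)⁻¹ :=
        map_inv χ3 (⟨g, hg⟩ : EE x y a b)
      rw [Prod.fst_inv, map_inv χ1, map_inv χ2, h0, toAdd_inv, toAdd_inv, toAdd_inv]
      linear_combination -i1
  -- the last coefficient
  have hzero : ∀ g : Multiplicative (ZMod p), toAdd g = 0 ↔ g = 1 := fun g => toAdd_eq_zero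
  have hP' : ∀ g : P, toAdd (χ1 g) * c 0 + toAdd (χ2 g) * c 1 = 0 := by
    intro g
    obtain ⟨e, he, rfl, hee⟩ := hE' g
    have h1 := hall e hee
    have h2 : χ3 ⟨e, hee⟩ = 1 := h3 (show (⟨e, hee⟩ : EE x y a b) ∈ E'.subgroupOf _ from he)
    rw [h2, toAdd_one, zero_mul, add_zero] at h1
    exact h1
  have hc2 : c 2 = 0 := by
    have h1 := hall t t.2
    rw [hP' t.1.1, zero_add] at h1
    rcases mul_eq_zero.1 h1 with h2 | h2
    · exact absurd ((hzero _).1 h2) ht
    · exact h2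
  have hc1 : c 0 = 0 := by
    have h1 := hP' z
    rw [hz2', toAdd_one, zero_mul, add_zero] at h1
    rcases mul_eq_zero.1 h1 with h2 | h2
    · exact absurd ((hzero _).1 h2) hz1
    · exact h2
  have hc3 : c 1 = 0 := by
    have h1 := hP' s
    rw [hc1, mul_zero, zero_add] at h1
    rcases mul_eq_zero.1 h1 with h2 | h2
    · exact absurd ((hzero _).1 h2) hs
    · exact h2
  apply hc0
  funext i
  fin_cases i
  · exact hc1
  · exact hc3
  · exact hc2

/-- a finite group all of whose subgroups with two generators are cyclic is cyclic -/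
theorem exists_pair {G : Type*} [Group G] [Finite G] (h : ¬ IsCyclic G) :
    ∃ x y : G, ¬ IsCyclic (Subgroup.closure {x, y} : Subgroup G) := by
  by_contra hcon
  push Not at hcon
  obtain ⟨x, hx⟩ := Finite.exists_max (fun g : G => Nat.card (Subgroup.zpowers g))
  apply h
  refine isCyclic_iff_exists_zpowers_eq_top.2 ⟨x, ?_⟩
  rw [eq_top_iff]
  intro y _
  obtain ⟨⟨z, hz⟩, hz2⟩ := (isCyclic_iff_exists_zpowers_eq_top.1 (hcon x y))
  have h1 : Subgroup.closure {x, y} ≤ Subgroup.zpowers z := by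
    intro g hg
    have h2 : (⟨g, hg⟩ : (Subgroup.closure {x, y} : Subgroup G)) ∈ Subgroup.zpowers
      (⟨z, hz⟩ : (Subgroup.closure {x, y} : Subgroup G)) := by rw [hz2]; trivial
    obtain ⟨k, hk⟩ := h2
    exact ⟨k, congrArg Subtype.val hk⟩
  have h3 : Subgroup.zpowers x ≤ Subgroup.zpowers z := by
    rw [Subgroup.zpowers_le]
    exact h1 (Subgroup.subset_closure (by simp))
  have h4 : Subgroup.zpowers x = Subgroup.zpowers z :=
    Subgroup.eq_of_le_of_card_ge h3 (hx z)
  rw [h4]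
  exact h1 (Subgroup.subset_closure (by simp))

end Pool.Agent.Q24.PS
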