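import Pool.Agent.Q24.PS.Field

/-!
# Solutions which are projective up to a bounded order
-/

set_option autoImplicit false

namespace Pool.Agent.Q24.PS

universe u v w

open IntermediateField

/-- The core: a homomorphism to the cover gives weak solutions. -/
theorem proj_core {T : Set ℕ} {n : ℕ} {E F Ω : Type*} [Field E] [Field F] [Field Ω] [Algebra E F]
    [Algebra F Ω] [Algebra E Ω] [IsScalarTower E F Ω] [Normal E F]
    {X H : Type*} [Group H] (c : FreeGroup X →* H) (j : H →* Gal(F/E)) (D : Subgroup Gal(Ω/E))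
    (π : D →* PCov c T n)
    (hπ : ∀ σ : D, j (proj c T n (π σ)) = AlgEquiv.restrictNormalHom F σ.1)
    (U : Subgroup Gal(Ω/E)) (hUπ : ∀ σ : D, σ.1 ∈ U → π σ = 1)
    (A : Type) [Group A] [Finite A] (β : A →* Gal(F/E))
    (hD : D.map (AlgEquiv.restrictNormalHom F) ≤ β.range) (hc : Nat.card β.ker ≤ n)
    (hT : IsT T β.ker) :
    ∃ φ : D →* A, (∀ σ : D, σ.1 ∈ U → φ σ = 1) ∧
      ∀ σ : D, β (φ σ) = AlgEquiv.restrictNormalHom F σ.1 := by
  let D1 : Subgroup H := (D.map (AlgEquiv.restrictNormalHom F)).comap j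
  obtain ⟨φ, hφ⟩ := weak c (n := n) (T := T) D1 j A β
    ((Subgroup.map_comap_le _ _).trans hD) hc hT
  have hmem : ∀ σ : D, π σ ∈ D1.comap (proj c T n) := by
    intro σ
    show j (proj c T n (π σ)) ∈ D.map (AlgEquiv.restrictNormalHom F)
    rw [hπ]
    exact ⟨σ, σ.2, rfl⟩
  refine ⟨φ.comp (π.codRestrict _ hmem), ?_, ?_⟩
  · intro σ hσ
    have h1 : π.codRestrict (D1.comap (proj c T n)) hmem σ = 1 := Subtype.ext (hUπ σ hσ)
    rw [MonoidHom.comp_apply, h1, map_one]
  · intro σ
    rw [MonoidHom.comp_apply, hφ]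
    exact hπ σ

/-- the group of automorphisms which are trivial on a finite normal extension is open -/
theorem open_ker {E N Ω : Type*} [Field E] [Field N] [Field Ω] [Algebra E N]
    [Algebra E Ω] [Algebra N Ω] [IsScalarTower E N Ω] [FiniteDimensional E N] [Normal E N] :
    IsOpen ((AlgEquiv.restrictNormalHom N : Gal(Ω/E) →* Gal(N/E)).ker : Set Gal(Ω/E)) := by
  set E₀ : IntermediateField E Ω := (IsScalarTower.toAlgHom E N Ω).fieldRange with hE₀
  have hfd : FiniteDimensional E E₀ :=
    LinearEquiv.finiteDimensional (AlgHom.equivFieldRange (IsScalarTower.toAlgHom E N Ω)).toLinearEquiv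
  have hopen : IsOpen (E₀.fixingSubgroup : Set Gal(Ω/E)) := E₀.fixingSubgroup_isOpen
  have heq : (AlgEquiv.restrictNormalHom N : Gal(Ω/E) →* Gal(N/E)).ker = E₀.fixingSubgroup := by
    ext σ
    rw [MonoidHom.mem_ker, IntermediateField.mem_fixingSubgroup_iff]
    constructor
    · rintro h _ ⟨x, rfl⟩
      have h1 : algebraMap N Ω (AlgEquiv.restrictNormalHom N σ x) = σ (algebraMap N Ω x) :=
        AlgEquiv.restrictNormal_commutes σ N x
      rw [h] at h1
      exact h1.symm
    · intro h
      ext x
      apply (algebraMap N Ω).injective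
      have h1 : algebraMap N Ω (AlgEquiv.restrictNormalHom N σ x) = σ (algebraMap N Ω x) :=
        AlgEquiv.restrictNormal_commutes σ N x
      rw [h1]
      exact h _ ⟨x, rfl⟩
  rw [heq]
  exact hopen

/-- The subfield of a solution for the relative cover is projective up to order `n`. -/
theorem proj_fixedField {E F N L G Γ : Type*} [Field E] [Field F] [Field N] [Field L]
    [Algebra E N] [FiniteDimensional E N] [IsGalois E N] [Algebra L N] [Group G] [Finite G]
    [Group Γ] [Algebra E F] [Algebra F N] [IsScalarTower E F N]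
    (α : G →* Γ) (s : Γ →* G) (T : Set ℕ) (n : ℕ)
    (e : Gal(N/E) ≃* RelCov α s T n)
    (hfix : ∀ σ : Gal(N/E), (∀ x : L, σ (algebraMap L N x) = algebraMap L N x) →
      (e σ).right = 1)
    [Normal E F] [Algebra L F] [IsScalarTower L F N]
    (ψ : G →* Gal(F/E))
    (hψ : ∀ σ, ψ (relProj α s T n (e σ)) = AlgEquiv.restrictNormalHom F σ) :
    ProjUpTo T n E L F := by
  classical
  intro D hD
  have hfdF : FiniteDimensional F N := FiniteDimensional.right E F N
  have halg : Algebra.IsAlgebraic F N := inferInstance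
  let ι : N →ₐ[F] AlgebraicClosure F := IsAlgClosed.lift
  let iNΩ : Algebra N (AlgebraicClosure F) := ι.toRingHom.toAlgebra
  have t1 : IsScalarTower F N (AlgebraicClosure F) :=
    IsScalarTower.of_algebraMap_eq fun x => (ι.commutes x).symm
  have t2 : IsScalarTower E N (AlgebraicClosure F) := by
    refine IsScalarTower.of_algebraMap_eq fun x => ?_
    rw [IsScalarTower.algebraMap_apply E F (AlgebraicClosure F),
      IsScalarTower.algebraMap_apply F N (AlgebraicClosure F),
      ← IsScalarTower.algebraMap_apply E F N]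
  have hL : ∀ x : L, algebraMap F (AlgebraicClosure F) (algebraMap L F x) =
      algebraMap N (AlgebraicClosure F) (algebraMap L N x) := by
    intro x
    rw [IsScalarTower.algebraMap_apply F N (AlgebraicClosure F),
      ← IsScalarTower.algebraMap_apply L F N]
  have hres : ∀ g : Gal((AlgebraicClosure F)/E), AlgEquiv.restrictNormalHom F g =
      AlgEquiv.restrictNormalHom F (AlgEquiv.restrictNormalHom N g) := by
    intro g
    ext x
    apply (algebraMap F (AlgebraicClosure F)).injective
    have h1 : algebraMap F (AlgebraicClosure F) (AlgEquiv.restrictNormalHom F g x) =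
      g (algebraMap F (AlgebraicClosure F) x) := AlgEquiv.restrictNormal_commutes g F x
    have h2 : algebraMap F N (AlgEquiv.restrictNormalHom F (AlgEquiv.restrictNormalHom N g) x) =
      AlgEquiv.restrictNormalHom N g (algebraMap F N x) := AlgEquiv.restrictNormal_commutes _ F x
    have h3 : algebraMap N (AlgebraicClosure F) (AlgEquiv.restrictNormalHom N g
      (algebraMap F N x)) = g (algebraMap N (AlgebraicClosure F) (algebraMap F N x)) :=
      AlgEquiv.restrictNormal_commutes g N _
    rw [h1, IsScalarTower.algebraMap_apply F N (AlgebraicClosure F),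
      IsScalarTower.algebraMap_apply F N (AlgebraicClosure F), h2, h3]
  have hright1 : ∀ g : Gal((AlgebraicClosure F)/E),
      (∀ x : L, g (algebraMap F (AlgebraicClosure F) (algebraMap L F x)) =
        algebraMap F (AlgebraicClosure F) (algebraMap L F x)) →
      (e (AlgEquiv.restrictNormalHom N g)).right = 1 := by
    intro g hg
    refine hfix _ fun x => ?_
    apply (algebraMap N (AlgebraicClosure F)).injective
    have h2 := hg x
    rw [hL] at h2
    rw [← h2]
    exact AlgEquiv.restrictNormal_commutes g N _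
  -- the homomorphism to the cover
  let π : D →* PCov (relc α s n) T n :=
    { toFun := fun σ => (e (AlgEquiv.restrictNormalHom N σ.1)).left
      map_one' := by
        rw [Subgroup.coe_one, map_one, map_one]
        rfl
      map_mul' := by
        intro σ τ
        rw [Subgroup.coe_mul, map_mul, map_mul, SemidirectProduct.mul_left,
          hright1 σ.1 (hD σ.1 σ.2), map_one]
        rfl }
  have hπ : ∀ σ : D, (ψ.comp α.ker.subtype) (proj (relc α s n) T n (π σ)) =
      AlgEquiv.restrictNormalHom F σ.1 := by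
    intro σ
    rw [hres, ← hψ]
    have h1 : e (AlgEquiv.restrictNormalHom N σ.1) =
        SemidirectProduct.inl (e (AlgEquiv.restrictNormalHom N σ.1)).left := by
      conv_lhs => rw [← SemidirectProduct.inl_left_mul_inr_right
        (e (AlgEquiv.restrictNormalHom N σ.1))]
      rw [hright1 σ.1 (hD σ.1 σ.2), map_one, mul_one]
    conv_rhs => rw [h1]
    rw [relProj_inl]
    rfl
  intro A _ _ β h1 h2 h3
  obtain ⟨φ, hφ1, hφ2⟩ := proj_core (relc α s n) (ψ.comp α.ker.subtype) D π hπ
    (AlgEquiv.restrictNormalHom N : Gal((AlgebraicClosure F)/E) →* Gal(N/E)).ker (by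
      intro σ hσ
      show (e (AlgEquiv.restrictNormalHom N σ.1)).left = 1
      rw [show AlgEquiv.restrictNormalHom N σ.1 = 1 from hσ, map_one]
      rfl) A β h1 h2 h3
  exact ⟨φ, ⟨_, open_ker, hφ1⟩, hφ2⟩

/-- The field between `F` and `N` given by a homomorphism. -/
theorem exists_between {E F N A : Type*} [Field E] [Field F] [Field N] [Algebra E F] [Algebra F N]
    [Algebra E N] [IsScalarTower E F N] [FiniteDimensional E N] [IsGalois E N] [Normal E F]
    [Group A] (β : A →* Gal(F/E)) (φ : Gal(N/E) →* A) (hφ : Function.Surjective φ)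
    (h : ∀ σ, β (φ σ) = AlgEquiv.restrictNormalHom F σ) :
    ∃ (F' : IntermediateField E N) (_ : IsGalois E F') (_ : Algebra F F')
      (_ : IsScalarTower F F' N) (_ : IsScalarTower E F F') (δ : Gal(F'/E) ≃* A),
      ∀ τ : Gal(F'/E), β (δ τ) = τ.restrictNormal F := by
  classical
  obtain ⟨F', hF⟩ : ∃ F' : IntermediateField E N, F' = fixedField φ.ker := ⟨_, rfl⟩
  have hgal : IsGalois E F' := by
    rw [hF]
    infer_instance
  have hmem : ∀ x : F, algebraMap F N x ∈ F' := by
    intro x
    rw [hF, IntermediateField.mem_fixedField_iff]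
    intro σ hσ
    have h1 : AlgEquiv.restrictNormalHom F σ = 1 := by
      rw [← h, show φ σ = 1 from hσ, map_one]
    have h2 : algebraMap F N (AlgEquiv.restrictNormalHom F σ x) = σ (algebraMap F N x) :=
      AlgEquiv.restrictNormal_commutes σ F x
    rw [← h2, h1]
    rfl
  let iLF : Algebra F F' := ((algebraMap F N).codRestrict F' hmem).toAlgebra
  have t : IsScalarTower F F' N := IsScalarTower.of_algebraMap_eq fun x => rfl
  have t2 : IsScalarTower E F F' := by
    refine IsScalarTower.of_algebraMap_eq fun x => ?_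
    apply (algebraMap F' N).injective
    rw [← IsScalarTower.algebraMap_apply F F' N, ← IsScalarTower.algebraMap_apply E F N,
      ← IsScalarTower.algebraMap_apply E F' N]
  have hker : φ.ker = (AlgEquiv.restrictNormalHom F' : Gal(N/E) →* Gal(F'/E)).ker := by
    rw [IntermediateField.restrictNormalHom_ker, hF, IntermediateField.fixingSubgroup_fixedField]
  have hsurj2 : Function.Surjective (AlgEquiv.restrictNormalHom F' : Gal(N/E) →* Gal(F'/E)) :=
    AlgEquiv.restrictNormalHom_surjective N
  let δ : Gal(F'/E) ≃* A :=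
    (QuotientGroup.quotientKerEquivOfSurjective _ hsurj2).symm.trans
      ((QuotientGroup.quotientMulEquivOfEq hker.symm).trans
        (QuotientGroup.quotientKerEquivOfSurjective φ hφ))
  have hδ : ∀ σ : Gal(N/E), δ (AlgEquiv.restrictNormalHom F' σ) = φ σ := by
    intro σ
    have h1 : (QuotientGroup.quotientKerEquivOfSurjective
        (AlgEquiv.restrictNormalHom F' : Gal(N/E) →* Gal(F'/E)) hsurj2).symm
        (AlgEquiv.restrictNormalHom F' σ) = QuotientGroup.mk σ := by
      rw [MulEquiv.symm_apply_eq]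
      rfl
    change (QuotientGroup.quotientKerEquivOfSurjective φ hφ)
      ((QuotientGroup.quotientMulEquivOfEq hker.symm)
        ((QuotientGroup.quotientKerEquivOfSurjective _ hsurj2).symm
          (AlgEquiv.restrictNormalHom F' σ))) = φ σ
    rw [h1]
    rfl
  refine ⟨F', hgal, iLF, t, t2, δ, ?_⟩
  intro τ
  obtain ⟨σ, rfl⟩ := hsurj2 τ
  rw [hδ, h]
  ext x
  apply (algebraMap F N).injective
  have h2 : algebraMap F N (AlgEquiv.restrictNormalHom F σ x) = σ (algebraMap F N x) :=
    AlgEquiv.restrictNormal_commutes σ F x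
  rw [h2, IsScalarTower.algebraMap_apply F F' N, IsScalarTower.algebraMap_apply F F' N,
    AlgEquiv.restrictNormal_commutes]
  exact (AlgEquiv.restrictNormal_commutes σ F' _).symm

/-- A solution for the relative cover contains a projective solution. -/
theorem exists_proj_subfield {E N L G Γ : Type*} [Field E] [Field N] [Field L]
    [Algebra E N] [FiniteDimensional E N] [IsGalois E N] [Algebra L N] [Group G] [Finite G]
    [Group Γ] (α : G →* Γ) (s : Γ →* G) (T : Set ℕ) (n : ℕ) (hs : ∀ x, α (s x) = x)
    (e : Gal(N/E) ≃* RelCov α s T n)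
    (hfix : ∀ σ : Gal(N/E), (∀ x : L, σ (algebraMap L N x) = algebraMap L N x) ↔
      (e σ).right = 1) :
    ∃ (F : IntermediateField E N) (_ : IsGalois E F) (_ : Algebra L F) (_ : IsScalarTower L F N)
      (γ : Gal(F/E) ≃* G), ProjUpTo T n E L F ∧
        (∀ σ : Gal(N/E), γ (AlgEquiv.restrictNormalHom F σ) = relProj α s T n (e σ)) ∧
        ∀ (A : Type) [Group A] [Finite A] (β : A →* Gal(F/E)) (s' : Γ →* A),
          Function.Surjective β → (∀ x, γ (β (s' x)) = s x) → Nat.card β.ker ≤ n → IsT T β.ker →
          ∃ φ : Gal(N/E) →* A, Function.Surjective φ ∧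
            ∀ σ, β (φ σ) = AlgEquiv.restrictNormalHom F σ := by
  classical
  set ρ : Gal(N/E) →* G := (relProj α s T n).comp e.toMonoidHom with hρ
  have hsurj : Function.Surjective ρ := (relProj_surjective α s T n hs).comp e.surjective
  obtain ⟨F, hF⟩ : ∃ F : IntermediateField E N, F = fixedField ρ.ker := ⟨_, rfl⟩
  have hgal : IsGalois E F := by
    rw [hF]
    infer_instance
  have hmem : ∀ x : L, algebraMap L N x ∈ F := by
    intro x
    rw [hF, IntermediateField.mem_fixedField_iff]
    intro σ hσ
    have h1 : relProj α s T n (e σ) = 1 := hσ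
    have h2 := alpha_relProj α s T n hs (e σ)
    rw [h1, map_one] at h2
    exact (hfix σ).mpr h2.symm x
  let iLF : Algebra L F := ((algebraMap L N).codRestrict F hmem).toAlgebra
  have t : IsScalarTower L F N := IsScalarTower.of_algebraMap_eq fun x => rfl
  have hker : ρ.ker = (AlgEquiv.restrictNormalHom F : Gal(N/E) →* Gal(F/E)).ker := by
    rw [IntermediateField.restrictNormalHom_ker, hF, IntermediateField.fixingSubgroup_fixedField]
  have hsurj2 : Function.Surjective (AlgEquiv.restrictNormalHom F : Gal(N/E) →* Gal(F/E)) :=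
    AlgEquiv.restrictNormalHom_surjective N
  let γ : Gal(F/E) ≃* G :=
    (QuotientGroup.quotientKerEquivOfSurjective _ hsurj2).symm.trans
      ((QuotientGroup.quotientMulEquivOfEq hker.symm).trans
        (QuotientGroup.quotientKerEquivOfSurjective ρ hsurj))
  have hγ : ∀ σ : Gal(N/E), γ (AlgEquiv.restrictNormalHom F σ) = ρ σ := by
    intro σ
    have h1 : (QuotientGroup.quotientKerEquivOfSurjective
        (AlgEquiv.restrictNormalHom F : Gal(N/E) →* Gal(F/E)) hsurj2).symm
        (AlgEquiv.restrictNormalHom F σ) = QuotientGroup.mk σ := by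
      rw [MulEquiv.symm_apply_eq]
      rfl
    change (QuotientGroup.quotientKerEquivOfSurjective ρ hsurj)
      ((QuotientGroup.quotientMulEquivOfEq hker.symm)
        ((QuotientGroup.quotientKerEquivOfSurjective _ hsurj2).symm
          (AlgEquiv.restrictNormalHom F σ))) = ρ σ
    rw [h1]
    rfl
  refine ⟨F, hgal, iLF, t, γ, ?_, hγ, ?_⟩
  · exact proj_fixedField (N := N) α s T n e (fun σ hσ => (hfix σ).mp hσ) γ.symm.toMonoidHom
      (fun σ => by
        change γ.symm (ρ σ) = _
        rw [← hγ, MulEquiv.symm_apply_apply])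
  · intro A _ _ β s' hβ hs' hc hT
    have hk : (γ.toMonoidHom.comp β).ker = β.ker := by
      ext x
      rw [MonoidHom.mem_ker, MonoidHom.mem_ker, MonoidHom.comp_apply]
      exact γ.map_eq_one_iff
    obtain ⟨φ, hφ1, hφ2⟩ := relWeak α s (T := T) (n := n) hs A (γ.toMonoidHom.comp β)
      (γ.surjective.comp hβ) s' hs' (by rw [hk]; exact hc) (by rw [hk]; exact hT)
    refine ⟨φ.comp e.toMonoidHom, hφ1.comp e.surjective, fun σ => ?_⟩
    apply γ.injective
    rw [hγ]
    exact hφ2 (e σ)

/-- The isomorphism of the Galois group of the fixed field. -/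
theorem exists_gal_equiv {E N G : Type*} [Field E] [Field N] [Algebra E N] [FiniteDimensional E N]
    [IsGalois E N] [Group G] (ρ : Gal(N/E) →* G) (hρ : Function.Surjective ρ)
    (F : IntermediateField E N) [Normal E F] (hF : F = fixedField ρ.ker) :
    ∃ γ : Gal(F/E) ≃* G, ∀ σ, γ (AlgEquiv.restrictNormalHom F σ) = ρ σ := by
  have hker : ρ.ker = (AlgEquiv.restrictNormalHom F : Gal(N/E) →* Gal(F/E)).ker := by
    rw [IntermediateField.restrictNormalHom_ker, hF, IntermediateField.fixingSubgroup_fixedField]
  have hsurj2 : Function.Surjective (AlgEquiv.restrictNormalHom F : Gal(N/E) →* Gal(F/E)) :=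
    AlgEquiv.restrictNormalHom_surjective N
  let γ : Gal(F/E) ≃* G :=
    (QuotientGroup.quotientKerEquivOfSurjective _ hsurj2).symm.trans
      ((QuotientGroup.quotientMulEquivOfEq hker.symm).trans
        (QuotientGroup.quotientKerEquivOfSurjective ρ hρ))
  refine ⟨γ, fun σ => ?_⟩
  have h1 : (QuotientGroup.quotientKerEquivOfSurjective
      (AlgEquiv.restrictNormalHom F : Gal(N/E) →* Gal(F/E)) hsurj2).symm
      (AlgEquiv.restrictNormalHom F σ) = QuotientGroup.mk σ := by
    rw [MulEquiv.symm_apply_eq]
    rfl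
  change (QuotientGroup.quotientKerEquivOfSurjective ρ hρ)
    ((QuotientGroup.quotientMulEquivOfEq hker.symm)
      ((QuotientGroup.quotientKerEquivOfSurjective _ hsurj2).symm
        (AlgEquiv.restrictNormalHom F σ))) = ρ σ
  rw [h1]
  rfl

/-- The absolute version. -/
theorem abs_subfield {E N G : Type*} [Field E] [Field N]
    [Algebra E N] [FiniteDimensional E N] [IsGalois E N] [Group G] [Finite G]
    (T : Set ℕ) (n : ℕ)
    (e : Gal(N/E) ≃* RelCov (1 : G →* PUnit.{1}) (1 : PUnit.{1} →* G) T n)
    (F : IntermediateField E N) [Normal E F]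
    (hF : F = fixedField ((relProj (1 : G →* PUnit.{1}) (1 : PUnit.{1} →* G) T n).comp
      e.toMonoidHom).ker) :
    Nonempty (Gal(F/E) ≃* G) ∧ ProjUpTo T n E E F ∧
      ∀ (A : Type) [Group A] [Finite A] (β : A →* Gal(F/E)),
        Function.Surjective β → Nat.card β.ker ≤ n → IsT T β.ker →
        ∃ φ : Gal(N/E) →* A, Function.Surjective φ ∧
          ∀ σ, β (φ σ) = AlgEquiv.restrictNormalHom F σ := by
  have hs : ∀ x, (1 : G →* PUnit.{1}) ((1 : PUnit.{1} →* G) x) = x := fun x => rfl
  set ρ : Gal(N/E) →* G := (relProj (1 : G →* PUnit.{1}) (1 : PUnit.{1} →* G) T n).comp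
    e.toMonoidHom with hρ
  have hsurj : Function.Surjective ρ := (relProj_surjective _ _ T n hs).comp e.surjective
  obtain ⟨γ, hγ⟩ := exists_gal_equiv ρ hsurj F hF
  refine ⟨⟨γ⟩, ?_, ?_⟩
  · exact proj_fixedField (N := N) _ _ T n e (fun σ _ => rfl) γ.symm.toMonoidHom
      (fun σ => by
        change γ.symm (ρ σ) = _
        rw [← hγ, MulEquiv.symm_apply_apply])
  · intro A _ _ β hβ hc hT
    have hk : (γ.toMonoidHom.comp β).ker = β.ker := by
      ext x
      rw [MonoidHom.mem_ker, MonoidHom.mem_ker, MonoidHom.comp_apply]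
      exact γ.map_eq_one_iff
    obtain ⟨φ, hφ1, hφ2⟩ := relWeak (1 : G →* PUnit.{1}) (1 : PUnit.{1} →* G) (T := T) (n := n) hs
      A (γ.toMonoidHom.comp β) (γ.surjective.comp hβ) 1 (fun x => by simp) (by rw [hk]; exact hc)
      (by rw [hk]; exact hT)
    refine ⟨φ.comp e.toMonoidHom, hφ1.comp e.surjective, fun σ => ?_⟩
    apply γ.injective
    rw [hγ]
    exact hφ2 (e σ)

end Pool.Agent.Q24.PS
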